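import Pool.Agent.Hhelper60.CpNonMeta

open Filter Set Topology

namespace Pool.Agent.Hhelper60.Cp

open PiNat (res)

theorem not_lindelof_sq (D : Data) : ¬ LindelofSpace (CC D × CC D) := by
  intro hL
  let U : Option Tr → Set (CC D × CC D) := fun o => o.elim (range (F1 D))ᶜ (UU D)
  obtain ⟨r, hr, hcov⟩ := hL.isLindelof_univ.elim_countable_subcover U (by
      rintro (_ | t)
      · exact (isClosed_range_F1 D).isOpen_compl
      · exact isOpen_UU D t) (by
      intro q _
      by_cases hq : q ∈ range (F1 D)
      · obtain ⟨t, rfl⟩ := hq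
        exact mem_iUnion.mpr ⟨some t, mem_UU D t⟩
      · exact mem_iUnion.mpr ⟨none, hq⟩)
  have hsub : (univ : Set Tr) ⊆ some ⁻¹' r := by
    intro t _
    obtain ⟨o, ho, hto⟩ := mem_iUnion₂.mp (hcov (mem_univ (F1 D t)))
    rcases o with _ | t'
    · exact absurd ⟨t, rfl⟩ hto
    · have := UU_sep D hto
      subst this
      exact ho
  have hcount : (some ⁻¹' r : Set Tr).Countable :=
    hr.preimage_of_injOn (fun a _ b _ h => Option.some_injective _ h)
  have h1 := Cardinal.mk_le_aleph0_iff.mpr (Set.countable_univ_iff.mp (hcount.mono hsub))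
  rw [mk_Tr] at h1
  exact absurd h1 (not_le.mpr Cardinal.aleph0_lt_continuum)

/-- A surjective inducing map induces a homeomorphism of the spaces of continuous two-valued
functions with the topology of pointwise convergence. -/
noncomputable def homeoOfInducing {X Y : Type} [TopologicalSpace X] [TopologicalSpace Y]
    (q : Y → X) (hq : IsInducing q) (hs : Function.Surjective q) :
    {f : X → Bool // Continuous f} ≃ₜ {f : Y → Bool // Continuous f} where
  toFun f := ⟨fun y => f.1 (q y), f.2.comp hq.continuous⟩
  invFun g := ⟨fun x => g.1 (Function.surjInv hs x), by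
    have hopen : IsOpenMap q := by
      intro s hso
      obtain ⟨t, ht, rfl⟩ := hq.isOpen_iff.mp hso
      rw [Set.image_preimage_eq t hs]
      exact ht
    have hquot : IsQuotientMap q := hopen.isQuotientMap hq.continuous hs
    rw [hquot.continuous_iff]
    have : (fun x => g.1 (Function.surjInv hs x)) ∘ q = g.1 := by
      funext y
      have h1 : Inseparable (Function.surjInv hs (q y)) y := by
        rw [← hq.inseparable_iff]
        rw [Function.surjInv_eq hs]
      exact (h1.map g.2).eq
    rw [this]
    exact g.2⟩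
  left_inv f := by
    apply Subtype.ext
    funext x
    simp only [Function.surjInv_eq hs]
  right_inv g := by
    apply Subtype.ext
    funext y
    have h1 : Inseparable (Function.surjInv hs (q y)) y := by
      rw [← hq.inseparable_iff]
      rw [Function.surjInv_eq hs]
    exact (h1.map g.2).eq
  continuous_toFun := by
    refine Continuous.subtype_mk ?_ _
    exact continuous_pi fun y => (continuous_apply (q y)).comp continuous_subtype_val
  continuous_invFun := by
    refine Continuous.subtype_mk ?_ _
    exact continuous_pi fun x => (continuous_apply _).comp continuous_subtype_val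

theorem lindelof_of_homeo {X Y : Type*} [TopologicalSpace X] [TopologicalSpace Y] (e : X ≃ₜ Y)
    (h : LindelofSpace Y) : LindelofSpace X := by
  constructor
  have := h.isLindelof_univ.image e.symm.continuous
  rwa [image_univ, e.symm.surjective.range_eq] at this

theorem metacompact_of_homeo {X Y : Type*} [TopologicalSpace X] [TopologicalSpace Y] (e : X ≃ₜ Y)
    (h : Metacompact X) : Metacompact Y := by
  intro U hU hcov
  obtain ⟨V, hV1, hV2, hV3, hV4⟩ := h ((fun u => e ⁻¹' u) '' U) (by
      rintro _ ⟨u, hu, rfl⟩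
      exact (hU u hu).preimage e.continuous) (by
      rw [eq_univ_iff_forall]
      intro x
      have : e x ∈ ⋃₀ U := by rw [hcov]; trivial
      obtain ⟨u, hu, hxu⟩ := mem_sUnion.mp this
      exact mem_sUnion.mpr ⟨_, ⟨u, hu, rfl⟩, hxu⟩)
  refine ⟨(fun v => e.symm ⁻¹' v) '' V, ?_, ?_, ?_, ?_⟩
  · rintro _ ⟨v, hv, rfl⟩
    exact (hV1 v hv).preimage e.symm.continuous
  · rw [eq_univ_iff_forall]
    intro y
    have : e.symm y ∈ ⋃₀ V := by rw [hV2]; trivial
    obtain ⟨v, hv, hyv⟩ := mem_sUnion.mp this
    exact mem_sUnion.mpr ⟨_, ⟨v, hv, rfl⟩, hyv⟩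
  · rintro _ ⟨v, hv, rfl⟩
    obtain ⟨_, ⟨u, hu, rfl⟩, hvu⟩ := hV3 v hv
    refine ⟨u, hu, ?_⟩
    intro y hy
    have := hvu hy
    simpa using this
  · intro y
    refine ((hV4 (e.symm y)).image fun v => e.symm ⁻¹' v).subset ?_
    rintro _ ⟨⟨v, hv, rfl⟩, hy⟩
    exact ⟨v, ⟨hv, hy⟩, rfl⟩

/-- The space `X`. -/
def X (D : Data) : Type := range (ev D)

instance (D : Data) : TopologicalSpace (X D) := inferInstanceAs (TopologicalSpace (range (ev D)))

instance (D : Data) : T35Space (X D) := inferInstanceAs (T35Space (range (ev D)))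

/-- The map onto `X`. -/
def qq (D : Data) : XX D → X D := fun x => ⟨ev D x, x, rfl⟩

theorem qq_surj (D : Data) : Function.Surjective (qq D) := by
  rintro ⟨_, x, rfl⟩
  exact ⟨x, rfl⟩

theorem qq_inducing (D : Data) : IsInducing (qq D) := by
  have h1 : IsInducing (Subtype.val ∘ qq D : XX D → (Alg D → Bool)) := isInducing_ev D
  exact IsInducing.of_comp (by
    apply Continuous.subtype_mk
    exact (isInducing_ev D).continuous) continuous_subtype_val h1

theorem basis_X (D : Data) :
    TopologicalSpace.IsTopologicalBasis {s : Set (X D) | IsClopen s} := by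
  apply TopologicalSpace.isTopologicalBasis_of_isOpen_of_nhds
  · intro u hu
    exact hu.2
  · intro x U hx hU
    obtain ⟨V, hV, rfl⟩ := isOpen_induced_iff.mp hU
    obtain ⟨W, hW, hxW, hWV⟩ :=
      (isTopologicalBasis_isClopen (X := Alg D → Bool)).exists_subset_of_mem_open
        (show x.1 ∈ V from hx) hV
    exact ⟨Subtype.val ⁻¹' W, IsClopen.preimage hW continuous_subtype_val, hxW,
      fun y hy => hWV hy⟩

theorem exists_space : ∃ (X : Type) (_ : TopologicalSpace X), T35Space X ∧
    TopologicalSpace.IsTopologicalBasis {s : Set X | IsClopen s} ∧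
    LindelofSpace {f : X → Bool // Continuous f} ∧
    ¬ LindelofSpace ({f : X → Bool // Continuous f} × {f : X → Bool // Continuous f}) ∧
    ¬ Metacompact ({f : X → Bool // Continuous f} × {f : X → Bool // Continuous f}) := by
  obtain ⟨Θ, hΘ⟩ := exists_theta E
  let D := dataOf Θ
  have hL : LindelofSpace (CC D) := lindelof_CC D Θ (dataOf_good Θ) hΘ
  let e : {f : X D → Bool // Continuous f} ≃ₜ CC D :=
    homeoOfInducing (qq D) (qq_inducing D) (qq_surj D)
  refine ⟨X D, inferInstance, inferInstance, basis_X D, lindelof_of_homeo e hL, ?_, ?_⟩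
  · intro h
    exact not_lindelof_sq D (lindelof_of_homeo (e.prodCongr e).symm h)
  · intro h
    exact not_metacompact D (metacompact_of_homeo (e.prodCongr e) h)

end Pool.Agent.Hhelper60.Cp
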