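import Pool.Agent.Hhelper60.CpThin

open Filter Set Topology

namespace Pool.Agent.Hhelper60.Cp

open PiNat (res)

/-- `b` is a condensation point of `Q`. -/
def Large (b : Tr) (Q : Set Tr) : Prop := ∀ n, ¬ {t ∈ Q | res t n = res b n}.Countable

theorem exists_infinite_fibre {Q : Set Tr} (hQ : ¬ Q.Countable) {α : Type*} [Countable α]
    (P : α → Tr → Prop) (hP : ∀ t ∈ Q, ∃ k, P k t) : ∃ k, ¬ {t ∈ Q | P k t}.Countable := by
  by_contra hcon
  push Not at hcon
  apply hQ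
  refine (countable_iUnion hcon).mono ?_
  intro t ht
  obtain ⟨k, hk⟩ := hP t ht
  exact mem_iUnion.mpr ⟨k, ht, hk⟩

theorem exists_nat_inj {X : Set Tr} (hX : ¬ X.Countable) :
    ∃ e : ℕ → Tr, Function.Injective e ∧ ∀ n, e n ∈ X := by
  have hinf : X.Infinite := fun h => hX h.countable
  exact ⟨fun n => (hinf.natEmbedding X n).1,
    fun a b hab => (hinf.natEmbedding X).injective (Subtype.ext hab),
    fun n => (hinf.natEmbedding X n).2⟩

/-- Core pigeonhole: an uncountable set cannot be avoided by the finite sets `S t`. -/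
theorem core {X Q : Set Tr} (S : Tr → Finset Tr) (hX : ¬ X.Countable) (hQ : ¬ Q.Countable)
    (h : ∀ x ∈ X, {t ∈ Q | x ∉ S t}.Countable) : False := by
  obtain ⟨e, hinj, he⟩ := exists_nat_inj hX
  have h1 : (⋃ n, {t ∈ Q | e n ∉ S t}).Countable := countable_iUnion fun n => h _ (he n)
  have h2 : ¬ Q ⊆ ⋃ n, {t ∈ Q | e n ∉ S t} := fun hs => hQ (h1.mono hs)
  obtain ⟨t, htQ, ht⟩ := not_subset.mp h2
  have h3 : ∀ n, e n ∈ S t := by
    intro n
    by_contra hn
    exact ht (mem_iUnion.mpr ⟨n, htQ, hn⟩)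
  exact (Set.infinite_of_injective_forall_mem hinj (s := (S t : Set Tr)) h3) (S t).finite_toSet

theorem Large.step {b : Tr} {Q : Set Tr} (hQ : Large b Q) (S : Tr → Finset Tr) (n : ℕ) :
    ∃ t ∈ Q, res t n = res b n ∧ Large b {t' ∈ Q | t ∉ S t' ∧ t' ∉ S t ∧ t' ≠ t} := by
  classical
  by_contra hcon
  push Not at hcon
  have h1 : ∀ t ∈ {t ∈ Q | res t n = res b n}, ∃ k,
      {t' ∈ {t' ∈ Q | res t' k = res b k} | t ∉ S t'}.Countable := by
    rintro t ⟨ht, htn⟩
    have := hcon t ht htn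
    unfold Large at this
    push Not at this
    obtain ⟨k, hk⟩ := this
    refine ⟨k, ?_⟩
    refine (hk.union ((S t).finite_toSet.countable.union (countable_singleton t))).mono ?_
    rintro t' ⟨⟨ht'Q, ht'k⟩, ht'S⟩
    by_cases h2 : t' ∈ S t
    · exact Or.inr (Or.inl h2)
    · by_cases h3 : t' = t
      · exact Or.inr (Or.inr h3)
      · exact Or.inl ⟨⟨ht'Q, ht'S, h2, h3⟩, ht'k⟩
  obtain ⟨k, hk⟩ := exists_infinite_fibre (hQ n)
    (fun k t => {t' ∈ {t' ∈ Q | res t' k = res b k} | t ∉ S t'}.Countable) h1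
  exact core S hk (hQ k) fun x hx => hx.2

theorem exists_large (S : Tr → Finset Tr) {T1 : Set Tr} (hT1 : ¬ T1.Countable) :
    ∃ b ∈ T1, Large b {t ∈ T1 | b ∉ S t ∧ t ≠ b} := by
  classical
  -- the condensation points
  let R : Set Tr := {t ∈ T1 | ∃ n, {s ∈ T1 | res s n = res t n}.Countable}
  have hR : R.Countable := by
    have hsub : R ⊆ ⋃ v : {v : Str // {s ∈ T1 | res s v.length = v}.Countable},
        {s ∈ T1 | res s v.1.length = v.1} := by
      rintro t ⟨ht, n, hn⟩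
      refine mem_iUnion.mpr ⟨⟨res t n, ?_⟩, ht, ?_⟩
      · rw [PiNat.res_length]
        exact hn
      · simp only [PiNat.res_length]
    exact (countable_iUnion fun v => v.2).mono hsub
  have hT2 : ¬ (T1 \ R).Countable := by
    intro h
    apply hT1
    refine (h.union hR).mono ?_
    intro t ht
    by_cases htR : t ∈ R
    · exact Or.inr htR
    · exact Or.inl ⟨ht, htR⟩
  have hLarge : ∀ t ∈ T1 \ R, Large t T1 := by
    rintro t ⟨ht, htR⟩ n hn
    exact htR ⟨ht, n, hn⟩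
  by_contra hcon
  push Not at hcon
  have h1 : ∀ t ∈ T1 \ R, ∃ v : Str, res t v.length = v ∧
      {t' ∈ {t' ∈ T1 | res t' v.length = v} | t ∉ S t'}.Countable := by
    intro t ht
    have := hcon t ht.1
    unfold Large at this
    push Not at this
    obtain ⟨n, hn⟩ := this
    refine ⟨res t n, by rw [PiNat.res_length], ?_⟩
    refine (hn.union (countable_singleton t)).mono ?_
    rintro t' ⟨⟨h2, h3⟩, h4⟩
    rw [PiNat.res_length] at h3
    by_cases h5 : t' = t
    · exact Or.inr h5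
    · exact Or.inl ⟨⟨h2, h4, h5⟩, h3⟩
  obtain ⟨v, hv⟩ := exists_infinite_fibre hT2 _ h1
  obtain ⟨t, ht⟩ : ({t | t ∈ T1 \ R ∧ (res t v.length = v ∧
      {t' ∈ {t' ∈ T1 | res t' v.length = v} | t ∉ S t'}.Countable)}).Nonempty := by
    by_contra h
    rw [not_nonempty_iff_eq_empty] at h
    apply hv
    rw [h]
    exact countable_empty
  have hbig : ¬ {t' ∈ T1 | res t' v.length = v}.Countable := by
    have := hLarge t ht.1 v.length
    rw [ht.2.1] at this
    exact this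
  exact core S hv hbig fun x hx => hx.2.2

/-- Existence of a convergent free sequence. -/
theorem free_seq (S : Tr → Finset Tr) (M : Tr → ℕ) :
    ∃ (b : Tr) (ts : ℕ → Tr) (m : ℕ), (∀ i j, i ≠ j → ts i ≠ ts j) ∧
      (∀ j, res (ts j) j = res b j) ∧ (∀ i j, i ≠ j → ts i ∉ S (ts j)) ∧
      (∀ j, b ∉ S (ts j)) ∧ (∀ j, M (ts j) ≤ m) ∧ ∀ j, res (ts j) m = res b m := by
  classical
  have huniv : ¬ (univ : Set Tr).Countable := by
    intro h
    have := Cardinal.mk_le_aleph0_iff.mpr (Set.countable_univ_iff.mp h)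
    rw [mk_Tr] at this
    exact absurd this (not_le.mpr Cardinal.aleph0_lt_continuum)
  obtain ⟨m, hm⟩ := exists_infinite_fibre huniv (fun m t => M t ≤ m) (fun t _ => ⟨M t, le_rfl⟩)
  obtain ⟨w, hw⟩ := exists_infinite_fibre hm (fun (w : Str) t => res t m = w)
    (fun t _ => ⟨_, rfl⟩)
  obtain ⟨b, hbT, hb⟩ := exists_large S hw
  set T1 : Set Tr := {t | t ∈ {t | t ∈ univ ∧ M t ≤ m} ∧ res t m = w}
  let nxt : {Q : Set Tr // Large b Q} → ℕ → Tr := fun Q n => (Q.2.step S n).choose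
  have nxt1 : ∀ Q n, nxt Q n ∈ Q.1 := fun Q n => (Q.2.step S n).choose_spec.1
  have nxt2 : ∀ Q n, res (nxt Q n) n = res b n := fun Q n => (Q.2.step S n).choose_spec.2.1
  have nxt3 : ∀ Q n, Large b {t' ∈ Q.1 | nxt Q n ∉ S t' ∧ t' ∉ S (nxt Q n) ∧ t' ≠ nxt Q n} :=
    fun Q n => (Q.2.step S n).choose_spec.2.2
  let st : ℕ → {Q : Set Tr // Large b Q} := fun n => Nat.rec ⟨_, hb⟩
    (fun n Q => ⟨_, nxt3 Q n⟩) n
  have st_succ : ∀ n, (st (n + 1)).1 =
      {t' ∈ (st n).1 | nxt (st n) n ∉ S t' ∧ t' ∉ S (nxt (st n) n) ∧ t' ≠ nxt (st n) n} :=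
    fun n => rfl
  have st_anti : ∀ i j, i ≤ j → (st j).1 ⊆ (st i).1 := by
    intro i j hij
    induction j, hij using Nat.le_induction with
    | base => exact Subset.rfl
    | succ j _ ih =>
      rw [st_succ]
      exact fun x hx => ih hx.1
  let ts : ℕ → Tr := fun n => nxt (st n) n
  have hlt : ∀ i j, i < j → ts i ∉ S (ts j) ∧ ts j ∉ S (ts i) ∧ ts j ≠ ts i := by
    intro i j hij
    have h1 : ts j ∈ (st (i + 1)).1 := st_anti (i + 1) j hij (nxt1 _ _)
    rw [st_succ] at h1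
    exact h1.2
  have hT : ∀ j, ts j ∈ {t | t ∈ T1 ∧ (b ∉ S t ∧ t ≠ b)} := fun j =>
    st_anti 0 j (Nat.zero_le _) (nxt1 _ _)
  refine ⟨b, ts, m, ?_, fun j => nxt2 _ _, ?_, fun j => (hT j).2.1, fun j => (hT j).1.1.2,
    fun j => ?_⟩
  · intro i j hij
    rcases lt_or_gt_of_ne hij with h | h
    · exact (hlt i j h).2.2.symm
    · exact (hlt j i h).2.2
  · intro i j hij
    rcases lt_or_gt_of_ne hij with h | h
    · exact (hlt i j h).1
    · exact (hlt j i h).2.1
  · rw [(hT j).1.2, hbT.2]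

end Pool.Agent.Hhelper60.Cp
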