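import Mathlib

open Filter Set

namespace Pool.Agent.Hhelper60.Cp

/-- The Cantor set. -/
abbrev Tr := ℕ → Bool

section Fusion

variable {C : Type*}

/-- `S` is positive with respect to the filter `f`. -/
def Pos (f : Filter C) (S : Set C) : Prop := ∃ᶠ h in f, h ∈ S

/-- The map `c` is moving on `S`: every fibre of `c` in `S` is null. -/
def Moving (f : Filter C) (c : C → Tr) (S : Set C) : Prop :=
  ∀ t : Tr, ¬ ∃ᶠ h in f, h ∈ S ∧ c h = t

theorem Pos.mono {f : Filter C} {S S' : Set C} (h : Pos f S) (hs : S ⊆ S') : Pos f S' :=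
  Frequently.mono h (fun _ hx => hs hx)

theorem Pos.nonempty {f : Filter C} {S : Set C} (h : Pos f S) : S.Nonempty :=
  h.exists

theorem Moving.mono {f : Filter C} {c : C → Tr} {S S' : Set C} (h : Moving f c S)
    (hs : S' ⊆ S) : Moving f c S' :=
  fun t ht => h t (ht.mono fun _ hx => ⟨hs hx.1, hx.2⟩)

theorem not_moving_of_const {f : Filter C} {c : C → Tr} {S : Set C} (hp : Pos f S) {t : Tr}
    (ht : ∀ h ∈ S, c h = t) : ¬ Moving f c S :=
  fun hm => hm t (Frequently.mono hp fun x hx => ⟨hx, ht x hx⟩)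

variable {f : Filter C} [CountableInterFilter f]

theorem pos_split {α : Type*} [Countable α] {S : Set C} (hp : Pos f S) (φ : C → α) :
    ∃ a, Pos f {h ∈ S | φ h = a} := by
  by_contra hcon
  push Not at hcon
  have h1 : ∀ a, ∀ᶠ h in f, ¬ (h ∈ S ∧ φ h = a) := fun a => not_frequently.mp (hcon a)
  have h2 := eventually_countable_forall.mpr h1
  apply hp
  filter_upwards [h2] with h hh hS
  exact hh (φ h) ⟨hS, rfl⟩

omit [CountableInterFilter f] in
theorem const_or_moving {S : Set C} (hp : Pos f S) (c : C → Tr) :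
    ∃ S' ⊆ S, Pos f S' ∧ ((∃ t, ∀ h ∈ S', c h = t) ∨ Moving f c S') := by
  by_cases hm : Moving f c S
  · exact ⟨S, Subset.rfl, hp, Or.inr hm⟩
  · unfold Moving at hm
    push Not at hm
    obtain ⟨t, ht⟩ := hm
    exact ⟨{h ∈ S | c h = t}, fun x hx => hx.1, ht, Or.inl ⟨t, fun h hh => hh.2⟩⟩

theorem moving_split {S : Set C} (hp : Pos f S) {c : C → Tr} (hm : Moving f c S) :
    ∃ k, ∀ v : Bool, Pos f {h ∈ S | c h k = v} := by
  by_contra hcon
  push Not at hcon
  choose v hv using hcon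
  have h1 : ∀ k, ∀ᶠ h in f, ¬ (h ∈ S ∧ c h k = v k) := fun k => not_frequently.mp (hv k)
  have h2 := eventually_countable_forall.mpr h1
  apply hm (fun k => !v k)
  refine (hp.and_eventually h2).mono ?_
  rintro h ⟨hS, hh⟩
  refine ⟨hS, funext fun k => ?_⟩
  have := hh k
  by_contra hne
  exact this ⟨hS, by
    cases hc : c h k <;> cases hvk : v k <;> simp_all⟩

theorem two_split {S S0 S1 : Set C} {c : C → Tr} (hm : Moving f c S)
    (h0 : S0 ⊆ S) (_h1 : S1 ⊆ S) (p0 : Pos f S0) (p1 : Pos f S1) :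
    ∃ S0' ⊆ S0, ∃ S1' ⊆ S1, Pos f S0' ∧ Pos f S1' ∧
      ∃ (k : ℕ) (v : Bool), (∀ h ∈ S0', c h k = v) ∧ (∀ h ∈ S1', c h k = !v) := by
  obtain ⟨k, hk⟩ := moving_split p0 (hm.mono h0)
  obtain ⟨v, hv⟩ := pos_split p1 (fun h => c h k)
  refine ⟨_, fun x hx => hx.1, _, fun x hx => hx.1, hk (!v), hv, k, !v, fun h hh => hh.2, ?_⟩
  intro h hh
  rw [Bool.not_not]
  exact hh.2

theorem fin_split {S : Set C} (c : ℕ → C → Tr) (n : ℕ) :
    ∀ S0 S1 : Set C, S0 ⊆ S → S1 ⊆ S → Pos f S0 → Pos f S1 →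
    ∃ S0' ⊆ S0, ∃ S1' ⊆ S1, Pos f S0' ∧ Pos f S1' ∧ ∀ j < n, Moving f (c j) S →
      ∃ (k : ℕ) (v : Bool), (∀ h ∈ S0', c j h k = v) ∧ (∀ h ∈ S1', c j h k = !v) := by
  induction n with
  | zero =>
    intro S0 S1 _ _ p0 p1
    exact ⟨S0, Subset.rfl, S1, Subset.rfl, p0, p1, fun j hj => absurd hj (Nat.not_lt_zero j)⟩
  | succ n ih =>
    intro S0 S1 h0 h1 p0 p1
    obtain ⟨A0, hA0, A1, hA1, q0, q1, hA⟩ := ih S0 S1 h0 h1 p0 p1
    by_cases hm : Moving f (c n) S
    · obtain ⟨B0, hB0, B1, hB1, r0, r1, k, v, hv0, hv1⟩ :=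
        two_split hm (hA0.trans h0) (hA1.trans h1) q0 q1
      refine ⟨B0, hB0.trans hA0, B1, hB1.trans hA1, r0, r1, ?_⟩
      intro j hj hjm
      rcases Nat.lt_succ_iff_lt_or_eq.mp hj with hlt | rfl
      · obtain ⟨k', v', h3, h4⟩ := hA j hlt hjm
        exact ⟨k', v', fun h hh => h3 h (hB0 hh), fun h hh => h4 h (hB1 hh)⟩
      · exact ⟨k, v, hv0, hv1⟩
    · refine ⟨A0, hA0, A1, hA1, q0, q1, ?_⟩
      intro j hj hjm
      rcases Nat.lt_succ_iff_lt_or_eq.mp hj with hlt | rfl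
      · exact hA j hlt hjm
      · exact absurd hjm hm

theorem step {S : Set C} (hp : Pos f S) (n : ℕ) (φ : C → ℕ) (c : ℕ → C → Tr) :
    ∃ S' : Bool → Set C, (∀ i, S' i ⊆ S) ∧ (∀ i, Pos f (S' i)) ∧
      (∀ i, ∀ h ∈ S' i, ∀ h' ∈ S' i, φ h = φ h') ∧
      (∀ i, (∃ t, ∀ h ∈ S' i, c n h = t) ∨ Moving f (c n) (S' i)) ∧
      (∀ j < n, Moving f (c j) S →
        ∃ (k : ℕ) (v : Bool), (∀ h ∈ S' false, c j h k = v) ∧ (∀ h ∈ S' true, c j h k = !v)) := by
  obtain ⟨A0, hA0, A1, hA1, q0, q1, hA⟩ :=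
    fin_split (S := S) c n S S Subset.rfl Subset.rfl hp hp
  have key : ∀ A : Set C, Pos f A → ∃ B ⊆ A, Pos f B ∧
      (∀ h ∈ B, ∀ h' ∈ B, φ h = φ h') ∧ ((∃ t, ∀ h ∈ B, c n h = t) ∨ Moving f (c n) B) := by
    intro A hA
    obtain ⟨a, ha⟩ := pos_split hA φ
    obtain ⟨B, hB, hBp, hBc⟩ := const_or_moving ha (c n)
    refine ⟨B, fun x hx => (hB hx).1, hBp, ?_, hBc⟩
    intro h hh h' hh'
    rw [(hB hh).2, (hB hh').2]
  obtain ⟨B0, hB0, r0, e0, m0⟩ := key A0 q0
  obtain ⟨B1, hB1, r1, e1, m1⟩ := key A1 q1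
  refine ⟨fun i => if i then B1 else B0, ?_, ?_, ?_, ?_, ?_⟩
  · intro i; cases i
    · simpa using hB0.trans hA0
    · simpa using hB1.trans hA1
  · intro i; cases i
    · simpa using r0
    · simpa using r1
  · intro i; cases i
    · simpa using e0
    · simpa using e1
  · intro i; cases i
    · simpa using m0
    · simpa using m1
  · intro j hj hjm
    obtain ⟨k, v, h3, h4⟩ := hA j hj hjm
    refine ⟨k, v, ?_, ?_⟩
    · intro h hh
      exact h3 h (hB0 (by simpa using hh))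
    · intro h hh
      exact h4 h (hB1 (by simpa using hh))

/-- The tree of positive sets. -/
noncomputable def fusTree [NeBot f] (φ : ℕ → C → ℕ) (c : ℕ → C → Tr) :
    List Bool → {S : Set C // Pos f S}
  | [] => ⟨univ, by unfold Pos; simpa using ‹NeBot f›⟩
  | i :: σ =>
    ⟨(step (fusTree φ c σ).2 σ.length (φ σ.length) c).choose i,
      (step (fusTree φ c σ).2 σ.length (φ σ.length) c).choose_spec.2.1 i⟩

theorem fusTree_mono [NeBot f] (φ : ℕ → C → ℕ) (c : ℕ → C → Tr) (i : Bool) (σ : List Bool) :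
    (fusTree (f := f) φ c (i :: σ)).1 ⊆ (fusTree (f := f) φ c σ).1 := by
  have := (step (fusTree (f := f) φ c σ).2 σ.length (φ σ.length) c).choose_spec.1 i
  simpa only [fusTree] using this

theorem fusTree_phi [NeBot f] (φ : ℕ → C → ℕ) (c : ℕ → C → Tr) (n : ℕ) :
    ∀ σ : List Bool, n + 1 ≤ σ.length → ∀ h ∈ (fusTree (f := f) φ c σ).1,
      ∀ h' ∈ (fusTree (f := f) φ c σ).1, φ n h = φ n h' := by
  intro σ
  induction σ with
  | nil => intro h; simp at h
  | cons i σ ih =>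
    intro hl h hh h' hh'
    by_cases hn : n + 1 ≤ σ.length
    · exact ih hn h (fusTree_mono φ c i σ hh) h' (fusTree_mono φ c i σ hh')
    · have hn' : n = σ.length := by
        simp only [List.length_cons] at hl
        omega
      subst hn'
      have := (step (fusTree (f := f) φ c σ).2 σ.length (φ σ.length) c).choose_spec.2.2.1 i
      simp only [fusTree] at hh hh'
      exact this h hh h' hh'

theorem fusTree_cm [NeBot f] (φ : ℕ → C → ℕ) (c : ℕ → C → Tr) (n : ℕ) :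
    ∀ σ : List Bool, n + 1 ≤ σ.length →
      ((∃ t, ∀ h ∈ (fusTree (f := f) φ c σ).1, c n h = t) ∨
        Moving f (c n) (fusTree (f := f) φ c σ).1) := by
  intro σ
  induction σ with
  | nil => intro h; simp at h
  | cons i σ ih =>
    intro hl
    by_cases hn : n + 1 ≤ σ.length
    · rcases ih hn with ⟨t, ht⟩ | hm
      · exact Or.inl ⟨t, fun h hh => ht h (fusTree_mono φ c i σ hh)⟩
      · exact Or.inr (hm.mono (fusTree_mono φ c i σ))
    · have hn' : n = σ.length := by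
        simp only [List.length_cons] at hl
        omega
      subst hn'
      have := (step (fusTree (f := f) φ c σ).2 σ.length (φ σ.length) c).choose_spec.2.2.2.1 i
      simpa only [fusTree] using this

theorem fusTree_split [NeBot f] (φ : ℕ → C → ℕ) (c : ℕ → C → Tr) (n : ℕ)
    (σ : List Bool) (hσ : n + 1 ≤ σ.length)
    (hm : Moving f (c n) (fusTree (f := f) φ c σ).1) :
    ∃ (k : ℕ) (v : Bool), (∀ h ∈ (fusTree (f := f) φ c (false :: σ)).1, c n h k = v) ∧
      (∀ h ∈ (fusTree (f := f) φ c (true :: σ)).1, c n h k = !v) := by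
  have := (step (fusTree (f := f) φ c σ).2 σ.length (φ σ.length) c).choose_spec.2.2.2.2 n
    (by omega) hm
  simpa only [fusTree] using this

/-- The fusion lemma. -/
theorem fusion [NeBot f] {ι κ : Type*} [Countable ι] [Countable κ] [Nonempty ι] [Nonempty κ]
    (φ : ι → C → ℕ) (c : κ → C → Tr) :
    ∃ S : List Bool → Set C, (∀ σ, Pos f (S σ)) ∧ (∀ i σ, S (i :: σ) ⊆ S σ) ∧
      ∃ nι : ι → ℕ, ∃ nκ : κ → ℕ,
        (∀ i σ, nι i ≤ σ.length → ∀ h ∈ S σ, ∀ h' ∈ S σ, φ i h = φ i h') ∧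
        (∀ j σ, nκ j ≤ σ.length → (∃ t, ∀ h ∈ S σ, c j h = t) ∨ (Moving f (c j) (S σ) ∧
          ∃ (k : ℕ) (v : Bool), (∀ h ∈ S (false :: σ), c j h k = v) ∧
            (∀ h ∈ S (true :: σ), c j h k = !v))) := by
  obtain ⟨eι, heι⟩ := exists_surjective_nat ι
  obtain ⟨eκ, heκ⟩ := exists_surjective_nat κ
  choose gι hgι using heι
  choose gκ hgκ using heκ
  refine ⟨fun σ => (fusTree (f := f) (fun n => φ (eι n)) (fun n => c (eκ n)) σ).1,
    fun σ => (fusTree (f := f) (fun n => φ (eι n)) (fun n => c (eκ n)) σ).2,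
    fun i σ => fusTree_mono _ _ i σ, fun i => gι i + 1, fun j => gκ j + 1, ?_, ?_⟩
  · intro i σ hσ h hh h' hh'
    have := fusTree_phi (f := f) (fun n => φ (eι n)) (fun n => c (eκ n)) (gι i) σ hσ h hh h' hh'
    simpa only [hgι] using this
  · intro j σ hσ
    rcases fusTree_cm (f := f) (fun n => φ (eι n)) (fun n => c (eκ n)) (gκ j) σ hσ with ⟨t, ht⟩ | hm
    · left
      refine ⟨t, ?_⟩
      simpa only [hgκ] using ht
    · right
      have h2 := fusTree_split (f := f) (fun n => φ (eι n)) (fun n => c (eκ n)) (gκ j) σ hσ hm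
      simp only [hgκ] at hm h2
      exact ⟨hm, h2⟩

end Fusion

end Pool.Agent.Hhelper60.Cp
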