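import Pool.Agent.Hhelper60.CpFusion

open Filter Set Cardinal

namespace Pool.Agent.Hhelper60.Cp

theorem mk_Tr : #Tr = 𝔠 := by
  simp [Tr]

theorem exists_disjoint_choice {I : Type} (hI : #I ≤ 𝔠) (μ : I → ℕ → Tr → Tr)
    (hμ : ∀ i j t, {b | μ i j b = t}.Countable) (Ex : I → Set Tr) (hEx : ∀ i, (Ex i).Countable) :
    ∃ b : I → Tr, (∀ i, b i ∉ Ex i) ∧
      ∀ i i', i ≠ i' → ∀ j j', μ i j (b i) ≠ μ i' j' (b i') := by
  classical
  obtain ⟨r, wo, hr⟩ := Cardinal.exists_ord_eq I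
  have hlt : ∀ i, #{i' // r i' i} < 𝔠 := by
    intro i
    refine lt_of_lt_of_le ?_ hI
    have := Ordinal.typein_lt_type r i
    rw [← hr, Cardinal.lt_ord, Ordinal.card_typein] at this
    exact this
  have hex : ∀ (i : I) (g : ∀ i', r i' i → Tr), ∃ b, b ∉ Ex i ∧
      ∀ i' (h : r i' i), ∀ j j', μ i j b ≠ μ i' j' (g i' h) := by
    intro i g
    let B : ({i' // r i' i} × ℕ × ℕ) → Set Tr := fun x =>
      {b | μ i x.2.1 b = μ x.1.1 x.2.2 (g x.1.1 x.1.2)}
    have hB : ∀ x, (B x).Countable := fun x => hμ _ _ _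
    have hU : #(⋃ x, B x : Set Tr) < 𝔠 := by
      refine lt_of_le_of_lt (Cardinal.mk_iUnion_le B) ?_
      refine Cardinal.mul_lt_of_lt Cardinal.aleph0_le_continuum ?_ ?_
      · rw [Cardinal.mk_prod]
        simp only [Cardinal.lift_id, Cardinal.mk_prod, Cardinal.mk_nat]
        refine Cardinal.mul_lt_of_lt Cardinal.aleph0_le_continuum (hlt i) ?_
        rw [Cardinal.aleph0_mul_aleph0]
        exact Cardinal.aleph0_lt_continuum
      · refine lt_of_le_of_lt ?_ Cardinal.aleph0_lt_continuum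
        exact ciSup_le' fun x => Cardinal.mk_le_aleph0_iff.mpr (hB x).to_subtype
    have hE : #(Ex i) < 𝔠 :=
      lt_of_le_of_lt (Cardinal.mk_le_aleph0_iff.mpr (hEx i).to_subtype)
        Cardinal.aleph0_lt_continuum
    have htot : #((Ex i ∪ ⋃ x, B x : Set Tr)) < 𝔠 :=
      lt_of_le_of_lt (Cardinal.mk_union_le _ _)
        (Cardinal.add_lt_of_lt Cardinal.aleph0_le_continuum hE hU)
    have hne : (Ex i ∪ ⋃ x, B x : Set Tr) ≠ Set.univ := by
      intro h
      rw [h, Cardinal.mk_univ, mk_Tr] at htot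
      exact lt_irrefl _ htot
    obtain ⟨b, hb⟩ := (Set.ne_univ_iff_exists_notMem _).mp hne
    refine ⟨b, fun h => hb (Or.inl h), ?_⟩
    intro i' h j j' heq
    apply hb
    right
    exact mem_iUnion.mpr ⟨(⟨i', h⟩, j, j'), heq⟩
  let F : ∀ i, (∀ i', r i' i → Tr) → Tr := fun i g => (hex i g).choose
  let b : I → Tr := fun i => wo.wf.fix F i
  have hb : ∀ i, b i = F i (fun i' _ => b i') := by
    intro i
    exact wo.wf.fix_eq F i
  have h1 : ∀ i, b i ∉ Ex i := by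
    intro i
    rw [hb i]
    exact (hex i _).choose_spec.1
  have h2 : ∀ i i', r i' i → ∀ j j', μ i j (b i) ≠ μ i' j' (b i') := by
    intro i i' h j j'
    have := (hex i (fun i' _ => b i')).choose_spec.2 i' h j j'
    have hbi : b i = (hex i (fun i' _ => b i')).choose := hb i
    rw [hbi]
    exact this
  refine ⟨b, h1, ?_⟩
  intro i i' hne j j'
  rcases trichotomous_of r i i' with h | h | h
  · exact (h2 i' i h j' j).symm
  · exact absurd h hne
  · exact h2 i i' h j j'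

theorem mk_continuousMap_le {Z : Type} [TopologicalSpace Z] [T2Space Z] (hZ : #Z ≤ 𝔠) :
    #(C(Tr, Z)) ≤ 𝔠 := by
  have hinj : Function.Injective (fun g : C(Tr, Z) => fun n : ℕ => g (TopologicalSpace.denseSeq Tr n)) := by
    intro g g' h
    have hd := TopologicalSpace.denseRange_denseSeq Tr
    have := DenseRange.equalizer hd g.continuous g'.continuous (by
      funext n
      exact congrFun h n)
    exact ContinuousMap.ext fun x => congrFun this x
  refine le_trans (Cardinal.mk_le_of_injective hinj) ?_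
  have : #(ℕ → Z) = #Z ^ ℵ₀ := by simp
  rw [this]
  calc #Z ^ ℵ₀ ≤ 𝔠 ^ ℵ₀ := Cardinal.power_le_power_right hZ
    _ = 𝔠 := Cardinal.continuum_power_aleph0

/-- Transfinite choice lemma. -/
theorem exists_theta (E : Type) [Countable E] :
    ∃ Θ : Tr → (E → Bool), ∀ (η : Tr → (E → Bool)) (μ : ℕ → Tr → Tr) (Ex : Set Tr),
      Continuous η → (∀ j, Continuous (μ j)) → (∀ j t, {b | μ j b = t}.Countable) →
      Ex.Countable → ∃ b, b ∉ Ex ∧ ∀ j, Θ (μ j b) = η b := by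
  classical
  let I : Type := {x : C(Tr, E → Bool) × (ℕ → C(Tr, Tr)) × (ℕ → Tr) //
    ∀ j t, {b | x.2.1 j b = t}.Countable}
  have hEB : #(E → Bool) ≤ 𝔠 := by
    have : #(E → Bool) = 2 ^ #E := by simp
    rw [this, ← Cardinal.two_power_aleph0]
    exact Cardinal.power_le_power_left two_ne_zero (Cardinal.mk_le_aleph0)
  have hI : #I ≤ 𝔠 := by
    refine le_trans (Cardinal.mk_subtype_le _) ?_
    have h1 : #(C(Tr, E → Bool)) ≤ 𝔠 := mk_continuousMap_le hEB
    have h2 : #(C(Tr, Tr)) ≤ 𝔠 := mk_continuousMap_le mk_Tr.le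
    have h3 : #(ℕ → C(Tr, Tr)) ≤ 𝔠 := by
      have : #(ℕ → C(Tr, Tr)) = #(C(Tr, Tr)) ^ ℵ₀ := by simp
      rw [this]
      calc #(C(Tr, Tr)) ^ ℵ₀ ≤ 𝔠 ^ ℵ₀ := Cardinal.power_le_power_right h2
        _ = 𝔠 := Cardinal.continuum_power_aleph0
    have h4 : #(ℕ → Tr) ≤ 𝔠 := by
      have : #(ℕ → Tr) = #(Tr) ^ ℵ₀ := by
        rw [← Cardinal.mk_nat, Cardinal.power_def]
      rw [this, mk_Tr]
      exact Cardinal.continuum_power_aleph0.le
    have h5 : #(C(Tr, E → Bool) × (ℕ → C(Tr, Tr)) × (ℕ → Tr)) ≤ 𝔠 * (𝔠 * 𝔠) := by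
      rw [Cardinal.mk_prod, Cardinal.lift_id, Cardinal.lift_id, Cardinal.mk_prod,
        Cardinal.lift_id, Cardinal.lift_id]
      exact mul_le_mul' h1 (mul_le_mul' h3 h4)
    refine h5.trans ?_
    rw [Cardinal.continuum_mul_self, Cardinal.continuum_mul_self]
  obtain ⟨b, hb1, hb2⟩ := exists_disjoint_choice hI (fun x j => x.1.2.1 j) (fun x j t => x.2 j t)
    (fun x => range x.1.2.2) (fun x => countable_range _)
  let Θ : Tr → (E → Bool) := fun t =>
    if h : ∃ (x : I) (j : ℕ), x.1.2.1 j (b x) = t then h.choose.1.1 (b h.choose) else fun _ => false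
  have hΘ : ∀ (x : I) (j : ℕ), Θ (x.1.2.1 j (b x)) = x.1.1 (b x) := by
    intro x j
    have h : ∃ (x' : I) (j' : ℕ), x'.1.2.1 j' (b x') = x.1.2.1 j (b x) := ⟨x, j, rfl⟩
    have hx : h.choose = x := by
      by_contra hne
      obtain ⟨j', hj'⟩ := h.choose_spec
      exact hb2 h.choose x hne j' j hj'
    simp only [Θ, dif_pos h, hx]
  refine ⟨Θ, ?_⟩
  intro η μ Ex hη hμ hfib hEx
  obtain ⟨ex, hex⟩ : ∃ ex : ℕ → Tr, Ex ⊆ range ex := by
    rcases Ex.eq_empty_or_nonempty with h | h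
    · exact ⟨fun _ _ => false, by simp [h]⟩
    · obtain ⟨ex, hex⟩ := hEx.exists_eq_range h
      exact ⟨ex, hex.le⟩
  let x : I := ⟨(⟨η, hη⟩, fun j => ⟨μ j, hμ j⟩, ex), hfib⟩
  exact ⟨b x, fun h => hb1 x (hex h), fun j => hΘ x j⟩

end Pool.Agent.Hhelper60.Cp
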