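import Pool.Agent.Hhelper60.CpThin

open Filter Set Topology

namespace Pool.Agent.Hhelper60.Cp

open PiNat (res)

/-- Continuous two-valued functions with the topology of pointwise convergence. -/
abbrev CC (D : Data) := {f : XX D → Bool // Continuous f}

theorem bool_toNat_inj {a b : Bool} (h : a.toNat = b.toNat) : a = b := by
  cases a <;> cases b <;> simp_all

/-- The data built from a function `Θ`. -/
noncomputable def dataOf (Θ : Tr → (E → Bool)) : Data where
  p t := (pigeonhole (Θ t) t).choose
  a t := (pigeonhole (Θ t) t).choose_spec.choose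
  l t := (pigeonhole (Θ t) t).choose_spec.choose_spec.choose
  h t := (pigeonhole (Θ t) t).choose_spec.choose_spec.choose_spec.1

theorem dataOf_good (Θ : Tr → (E → Bool)) (t : Tr) (k : ℕ) :
    Θ t ((dataOf Θ).a t k) = Θ t (ept ((dataOf Θ).p t)) :=
  (pigeonhole (Θ t) t).choose_spec.choose_spec.choose_spec.2 k

theorem Modulus.thin {nL : ℕ} {c : ℕ → Tr} {N : ℕ → ℕ} (h : Modulus nL c N) :
    Thin (range c) := by
  classical
  refine ⟨(Finset.range nL).image c, fun n => ?_⟩
  refine ((Finset.range (N n)).finite_toSet.image c).subset ?_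
  rintro t ⟨⟨i, rfl⟩, hi⟩
  by_cases hin : i < N n
  · exact mem_image_of_mem c (by simpa using hin)
  · obtain ⟨i', hi', he⟩ := h n i (not_lt.mp hin)
    exact absurd he.symm (hi _ (Finset.mem_image_of_mem c (Finset.mem_range.mpr hi')))

theorem Modulus.sep_heads {nL : ℕ} {c : ℕ → Tr} {t : Tr}
    (ht : ∀ i < nL, c i ≠ t) : ∃ n, ∀ i < nL, res (c i) n ≠ res t n := by
  classical
  obtain ⟨n, hn⟩ := exists_sep_finset ((Finset.range nL).image c) t (by
    intro hmem
    obtain ⟨i, hi, hit⟩ := Finset.mem_image.mp hmem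
    exact ht i (Finset.mem_range.mp hi) hit)
  exact ⟨n, fun i hi => hn n le_rfl _ (Finset.mem_image_of_mem c (Finset.mem_range.mpr hi))⟩

theorem continuous_of_cylinder {Z : Type*} [TopologicalSpace Z] (F : Tr → Z) (n : ℕ)
    (hF : ∀ b b' : Tr, res b' n = res b n → F b' = F b) : Continuous F := by
  apply IsLocallyConstant.continuous
  rw [IsLocallyConstant.iff_exists_open]
  intro b
  refine ⟨PiNat.cylinder b n, PiNat.isOpen_cylinder (fun _ => Bool) b n,
    PiNat.self_mem_cylinder b n, ?_⟩
  intro b' hb'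
  rw [PiNat.cylinder_eq_res] at hb'
  exact hF b b' hb'

theorem nhds_CC {D : Data} {h0 : CC D} {U : Set (CC D)} (hU : U ∈ 𝓝 h0) :
    ∃ Q : Finset (XX D), ∀ h : CC D, (∀ x ∈ Q, h.1 x = h0.1 x) → h ∈ U := by
  rw [mem_nhds_subtype] at hU
  obtain ⟨V, hV, hVU⟩ := hU
  obtain ⟨V', hV'V, hV'o, hmem⟩ := mem_nhds_iff.mp hV
  obtain ⟨I, u, hu, hsub⟩ := isOpen_pi_iff.mp hV'o _ hmem
  refine ⟨I, fun h hh => hVU (hV'V (hsub ?_))⟩
  intro x hx
  rw [hh x hx]
  exact (hu x hx).2

theorem lindelof_CC (D : Data) (Θ : Tr → (E → Bool))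
    (hD : ∀ t k, Θ t (D.a t k) = Θ t (ept (D.p t)))
    (hΘ : ∀ (η : Tr → (E → Bool)) (μ : ℕ → Tr → Tr) (Ex : Set Tr),
      Continuous η → (∀ j, Continuous (μ j)) → (∀ j t, {b | μ j b = t}.Countable) →
      Ex.Countable → ∃ b, b ∉ Ex ∧ ∀ j, Θ (μ j b) = η b) :
    LindelofSpace (CC D) := by
  classical
  constructor
  intro f hne hci _
  -- critical sequences
  have hex : ∀ (h : CC D) (p : Option Str), ∃ (nL : ℕ) (c : ℕ → Tr) (N : ℕ → ℕ),
      Modulus nL c N ∧ ∀ s x, At p s x → (∀ i, res (c i) s.length ≠ s) →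
        h.1 (Sum.inl x) = h.1 (Sum.inl (ept p)) := by
    intro h p
    obtain ⟨K, hK, hKc⟩ := (continuous_iff_mem_alg.mp h.2).1 p
    obtain ⟨nL, c, N, hsub, hm⟩ := thin_enum hK
    refine ⟨nL, c, N, hm, fun s x hsx hs => hKc s x hsx ?_⟩
    rintro ⟨t, ht, hts⟩
    obtain ⟨i, rfl⟩ := hsub ht
    exact hs i hts
  choose nL c N hmod hcond using hex
  have hst : ∀ (h : CC D) (t : Tr), ∃ k0, ∀ k, k0 ≤ k →
      h.1 (Sum.inl (D.a t k)) = h.1 (Sum.inr t) := by
    intro h t
    exact eventually_atTop.mp ((continuous_iff_mem_alg.mp h.2).2 t)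
  choose st hst using hst
  -- the key reference property for an element of the space
  have hkey : ∀ (h : CC D) (t : Tr), (∀ i, c h (D.p t) i ≠ t) →
      h.1 (Sum.inr t) = h.1 (Sum.inl (ept (D.p t))) := by
    intro h t hc
    obtain ⟨n, hn⟩ := (hmod h (D.p t)).sep hc
    have h1 := star (D.h t) (g := fun x => h.1 (Sum.inl x)) (c := c h (D.p t))
      (hcond h (D.p t)) hn
    obtain ⟨k, hk1, hk2⟩ := (h1.and (eventually_ge_atTop (st h t))).exists
    rw [← hst h t k hk2]
    exact hk1
  -- fusion
  let φ : (E ⊕ (Option Str × ℕ × ℕ) ⊕ Option Str ⊕ (Option Str × ℕ) ⊕ (Option Str × ℕ) ⊕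
      (Option Str × ℕ)) → CC D → ℕ :=
    Sum.elim (fun x h => (h.1 (Sum.inl x)).toNat)
      (Sum.elim (fun q h => (c h q.1 q.2.1 q.2.2).toNat)
        (Sum.elim (fun p h => nL h p)
          (Sum.elim (fun q h => N h q.1 q.2)
            (Sum.elim (fun q h => (h.1 (Sum.inr (c h q.1 q.2))).toNat)
              (fun q h => st h (c h q.1 q.2))))))
  obtain ⟨S, hSpos, hSmono, nι, nκ, hφ, hcm⟩ :=
    fusion (f := f) φ (fun (q : Option Str × ℕ) (h : CC D) => c h q.1 q.2)
  have hanti : ∀ (b : Tr) (n m : ℕ), n ≤ m → S (res b m) ⊆ S (res b n) := by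
    intro b n m hnm
    induction m, hnm using Nat.le_induction with
    | base => exact Subset.rfl
    | succ m _ ih => exact (hSmono _ _).trans ih
  choose rep hrep using fun σ => (hSpos σ).nonempty
  have hlen : ∀ (b : Tr) (n : ℕ), (res b n).length = n := fun b n => PiNat.res_length b n
  -- decided values
  have dec : ∀ i (b : Tr) (m : ℕ), nι i ≤ m → ∀ h ∈ S (res b m),
      φ i h = φ i (rep (res b (nι i))) := by
    intro i b m hm h hh
    exact hφ i (res b (nι i)) (by rw [hlen]) h (hanti b _ _ hm hh) _ (hrep _)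
  let nE : E → ℕ := fun x => nι (Sum.inl x)
  let nC : Option Str → ℕ → ℕ → ℕ := fun p i n => nι (Sum.inr (Sum.inl (p, i, n)))
  let nl : Option Str → ℕ := fun p => nι (Sum.inr (Sum.inr (Sum.inl p)))
  let nN : Option Str → ℕ → ℕ := fun p n => nι (Sum.inr (Sum.inr (Sum.inr (Sum.inl (p, n)))))
  let nV : Option Str → ℕ → ℕ :=
    fun p n => nι (Sum.inr (Sum.inr (Sum.inr (Sum.inr (Sum.inl (p, n))))))
  let nS : Option Str → ℕ → ℕ :=
    fun p n => nι (Sum.inr (Sum.inr (Sum.inr (Sum.inr (Sum.inr (p, n))))))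
  let gb : Tr → E → Bool := fun b x => (rep (res b (nE x))).1 (Sum.inl x)
  let cb : Tr → Option Str → ℕ → Tr := fun b p i n => c (rep (res b (nC p i n))) p i n
  let nLb : Tr → Option Str → ℕ := fun b p => nL (rep (res b (nl p))) p
  let Nb : Tr → Option Str → ℕ → ℕ := fun b p n => N (rep (res b (nN p n))) p n
  let vb : Tr → Option Str → ℕ → Bool := fun b p i =>
    (rep (res b (nV p i))).1 (Sum.inr (c (rep (res b (nV p i))) p i))
  let sb : Tr → Option Str → ℕ → ℕ := fun b p i =>
    st (rep (res b (nS p i))) (c (rep (res b (nS p i))) p i)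
  have gb_eq : ∀ b x m, nE x ≤ m → ∀ h ∈ S (res b m), h.1 (Sum.inl x) = gb b x := by
    intro b x m hm h hh
    exact bool_toNat_inj (dec (Sum.inl x) b m hm h hh)
  have cb_eq : ∀ b p i n m, nC p i n ≤ m → ∀ h ∈ S (res b m), c h p i n = cb b p i n := by
    intro b p i n m hm h hh
    exact bool_toNat_inj (dec (Sum.inr (Sum.inl (p, i, n))) b m hm h hh)
  have nLb_eq : ∀ b p m, nl p ≤ m → ∀ h ∈ S (res b m), nL h p = nLb b p := by
    intro b p m hm h hh
    exact dec (Sum.inr (Sum.inr (Sum.inl p))) b m hm h hh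
  have Nb_eq : ∀ b p n m, nN p n ≤ m → ∀ h ∈ S (res b m), N h p n = Nb b p n := by
    intro b p n m hm h hh
    exact dec (Sum.inr (Sum.inr (Sum.inr (Sum.inl (p, n))))) b m hm h hh
  have vb_eq : ∀ b p i m, nV p i ≤ m → ∀ h ∈ S (res b m),
      h.1 (Sum.inr (c h p i)) = vb b p i := by
    intro b p i m hm h hh
    exact bool_toNat_inj
      (dec (Sum.inr (Sum.inr (Sum.inr (Sum.inr (Sum.inl (p, i)))))) b m hm h hh)
  have sb_eq : ∀ b p i m, nS p i ≤ m → ∀ h ∈ S (res b m), st h (c h p i) = sb b p i := by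
    intro b p i m hm h hh
    exact dec (Sum.inr (Sum.inr (Sum.inr (Sum.inr (Sum.inr (p, i)))))) b m hm h hh
  have res_eq : ∀ (b : Tr) (p : Option Str) (n M : ℕ), ∃ m0, ∀ m, m0 ≤ m → ∀ h ∈ S (res b m),
      ∀ i < M, res (c h p i) n = res (cb b p i) n := by
    intro b p n M
    refine ⟨(Finset.range M).sup fun i => (Finset.range n).sup fun k => nC p i k, ?_⟩
    intro m hm h hh i hi
    rw [PiNat.res_eq_res]
    intro k hk
    refine cb_eq b p i k m (le_trans ?_ hm) h hh
    refine le_trans ?_ (Finset.le_sup (f := fun i => (Finset.range n).sup fun k => nC p i k)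
      (Finset.mem_range.mpr hi))
    exact Finset.le_sup (f := fun k => nC p i k) (Finset.mem_range.mpr hk)
  -- properties of the limit
  have modb : ∀ b p, Modulus (nLb b p) (cb b p) (Nb b p) := by
    intro b p n i hi
    obtain ⟨m0, hm0⟩ := res_eq b p n (max (i + 1) (nLb b p))
    let m := max m0 (max (nl p) (nN p n))
    have hh := hrep (res b m)
    set h := rep (res b m)
    have e1 := nLb_eq b p m (le_trans (le_max_left _ _) (le_max_right _ _)) h hh
    have e2 := Nb_eq b p n m (le_trans (le_max_right _ _) (le_max_right _ _)) h hh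
    have e3 := hm0 m (le_max_left _ _) h hh
    obtain ⟨i', hi', he⟩ := hmod h p n i (by rw [e2]; exact hi)
    rw [e1] at hi'
    refine ⟨i', hi', ?_⟩
    rw [← e3 i (by omega), ← e3 i' (by omega), he]
  have condb : ∀ b p s x, At p s x → (∀ i, res (cb b p i) s.length ≠ s) →
      gb b x = gb b (ept p) := by
    intro b p s x hsx hs
    obtain ⟨m0, hm0⟩ := res_eq b p s.length (max (Nb b p s.length) (nLb b p))
    let m := max m0 (max (max (nl p) (nN p s.length)) (max (nE x) (nE (ept p))))
    have hh := hrep (res b m)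
    set h := rep (res b m)
    have e1 := nLb_eq b p m (by simp only [m]; omega) h hh
    have e2 := Nb_eq b p s.length m (by simp only [m]; omega) h hh
    have e3 := hm0 m (le_max_left _ _) h hh
    have e4 := gb_eq b x m (by simp only [m]; omega) h hh
    have e5 := gb_eq b (ept p) m (by simp only [m]; omega) h hh
    rw [← e4, ← e5]
    apply hcond h p s x hsx
    have small : ∀ i < max (Nb b p s.length) (nLb b p), res (c h p i) s.length ≠ s := by
      intro i hi
      rw [e3 i hi]
      exact hs i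
    intro i
    by_cases hi : i < max (Nb b p s.length) (nLb b p)
    · exact small i hi
    · obtain ⟨i', hi', he⟩ := hmod h p s.length i (by rw [e2]; omega)
      rw [he]
      exact small i' (by rw [e1] at hi'; omega)
  -- moving coordinates
  let Mov : Tr → Option Str × ℕ → Prop := fun b j =>
    Moving f (fun h => c h j.1 j.2) (S (res b (nκ j)))
  have const_lem : ∀ b j, ¬ Mov b j → ∀ m, nκ j ≤ m → ∀ h ∈ S (res b m),
      c h j.1 j.2 = cb b j.1 j.2 := by
    intro b j hj m hm h hh
    rcases hcm j (res b (nκ j)) (by rw [hlen]) with ⟨t, ht⟩ | ⟨hmov, _⟩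
    · have e1 : c h j.1 j.2 = t := ht h (hanti b _ _ hm hh)
      rw [e1]
      funext n
      let m' := max m (nC j.1 j.2 n)
      have hh' := hrep (res b m')
      have e2 := cb_eq b j.1 j.2 n m' (le_max_right _ _) _ hh'
      have e3 := ht _ (hanti b _ _ (le_trans hm (le_max_left _ _)) hh')
      rw [← e2]
      exact congrFun e3.symm n
    · exact absurd hmov hj
  have mov_lem : ∀ b j, Mov b j → ∀ m, nκ j ≤ m →
      Moving f (fun h => c h j.1 j.2) (S (res b m)) :=
    fun b j hj m hm => Moving.mono hj (hanti b _ _ hm)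
  have fib : ∀ j t, {b | Mov b j ∧ cb b j.1 j.2 = t}.Countable := by
    intro j t
    apply Set.countable_of_injective_of_countable_image (f := fun b => res b (nκ j)) _
      (Set.to_countable _)
    rintro b ⟨hb1, hb2⟩ b' ⟨hb1', hb2'⟩ hbb
    by_contra hne
    have hdiff : ∃ n, b n ≠ b' n := Function.ne_iff.mp hne
    let n := Nat.find hdiff
    have hn : b n ≠ b' n := Nat.find_spec hdiff
    have hnlt : ∀ m, m < n → b m = b' m := fun m hm => not_not.mp (Nat.find_min hdiff hm)
    have hσ : res b n = res b' n := by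
      rw [PiNat.res_eq_res]
      exact fun m hm => hnlt m hm
    have hnn : nκ j ≤ n := by
      by_contra hlt
      push Not at hlt
      simp only at hbb
      rw [PiNat.res_eq_res] at hbb
      exact hn (hbb hlt)
    have hmovσ := mov_lem b j hb1 n hnn
    rcases hcm j (res b n) (by rw [hlen]; exact hnn) with ⟨t', ht'⟩ | ⟨_, k, v, hf, ht⟩
    · exact not_moving_of_const (hSpos _) ht' hmovσ
    · have hval : ∀ (b'' : Tr), res b'' n = res b n → cb b'' j.1 j.2 k = if b'' n then !v else v := by
        intro b'' hb''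
        let m := max (n + 1) (nC j.1 j.2 k)
        have hh := hrep (res b'' m)
        have e1 := cb_eq b'' j.1 j.2 k m (le_max_right _ _) _ hh
        rw [← e1]
        have hmem : rep (res b'' m) ∈ S (b'' n :: res b n) := by
          have := hanti b'' (n + 1) m (le_max_left _ _) hh
          rw [PiNat.res_succ, hb''] at this
          exact this
        cases hbn : b'' n
        · rw [hbn] at hmem
          simpa using hf _ hmem
        · rw [hbn] at hmem
          simpa using ht _ hmem
      have e1 := hval b rfl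
      have e2 := hval b' hσ.symm
      rw [hb2] at e1
      rw [hb2'] at e2
      rw [e1] at e2
      revert e2 hn
      cases b n <;> cases b' n <;> cases v <;> simp
  have gb_cont : Continuous gb := by
    refine continuous_pi fun x => continuous_of_cylinder _ (nE x) ?_
    intro b b' h
    simp only [gb, h]
  have cb_cont : ∀ p i, Continuous (fun b => cb b p i) := by
    intro p i
    refine continuous_pi fun n => continuous_of_cylinder _ (nC p i n) ?_
    intro b b' h
    simp only [cb, h]
  let μ : Option Str × ℕ → Tr → Tr := fun j b => if Mov b j then cb b j.1 j.2 else b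
  have μ_cont : ∀ j, Continuous (μ j) := by
    intro j
    refine continuous_pi fun n =>
      continuous_of_cylinder _ (max (nκ j) (max (nC j.1 j.2 n) (n + 1))) ?_
    intro b b' h
    have h1 : res b' (nκ j) = res b (nκ j) := res_mono h (le_max_left _ _)
    have h2 : res b' (nC j.1 j.2 n) = res b (nC j.1 j.2 n) :=
      res_mono h (le_trans (le_max_left _ _) (le_max_right _ _))
    have h3 : b' n = b n := by
      rw [PiNat.res_eq_res] at h
      exact h (by omega)
    simp only [μ, Mov, cb, h1]
    split_ifs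
    · simp only [h2]
    · exact h3
  have μ_fib : ∀ j t, {b | μ j b = t}.Countable := by
    intro j t
    refine ((fib j t).union (countable_singleton t)).mono ?_
    intro b hb
    by_cases hm : Mov b j
    · left
      refine ⟨hm, ?_⟩
      have : μ j b = t := hb
      simpa only [μ, if_pos hm] using this
    · right
      have : μ j b = t := hb
      simp only [μ, if_neg hm] at this
      exact this
  -- the exceptional sets
  let B : Str → Finset (Option Str × ℕ) → Set Tr := fun σ Λ =>
    {b | (∀ q ∈ Λ, Mov b q) ∧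
      ¬ ∃ᶠ h in f, h ∈ S σ ∧ ∀ q ∈ Λ, ∀ i, c h q.1 i ≠ cb b q.1 q.2}
  have B_ctbl : ∀ σ Λ, (B σ Λ).Countable := by
    intro σ Λ
    obtain ⟨D1, hD1c, hD1d⟩ := TopologicalSpace.exists_countable_dense ↥(B σ Λ)
    let D0 : Set Tr := Subtype.val '' D1
    have hD0c : D0.Countable := hD1c.image _
    have hD0B : D0 ⊆ B σ Λ := by
      rintro _ ⟨x, _, rfl⟩
      exact x.2
    have hcl : B σ Λ ⊆ closure D0 := Subtype.dense_iff.mp hD1d
    have hev : ∀ᶠ h in f, ∀ b ∈ D0, h ∈ S σ → ∃ q ∈ Λ, ∃ i, c h q.1 i = cb b q.1 q.2 := by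
      rw [eventually_countable_ball hD0c]
      intro b hb
      have := (hD0B hb).2
      rw [not_frequently] at this
      filter_upwards [this] with h hh hS
      by_contra hcon
      push Not at hcon
      exact hh ⟨hS, hcon⟩
    obtain ⟨h, hhS, hhb⟩ := (Frequently.and_eventually (hSpos σ) hev).exists
    have hZ : IsClosed (⋃ q ∈ Λ, {b | cb b q.1 q.2 ∈ range (c h q.1)}) := by
      apply isClosed_biUnion_finset
      intro q _
      exact (hmod h q.1).isClosed.preimage (cb_cont q.1 q.2)
    have hsub : D0 ⊆ ⋃ q ∈ Λ, {b | cb b q.1 q.2 ∈ range (c h q.1)} := by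
      intro b hb
      obtain ⟨q, hq, i, hi⟩ := hhb b hb hhS
      exact mem_iUnion₂.mpr ⟨q, hq, i, hi⟩
    have hB : B σ Λ ⊆ ⋃ q ∈ Λ, {b | cb b q.1 q.2 ∈ range (c h q.1)} :=
      hcl.trans (closure_minimal hsub hZ)
    refine Set.Countable.mono (s₂ := ⋃ q ∈ Λ, ⋃ i : ℕ, {b | Mov b q ∧ cb b q.1 q.2 = c h q.1 i}) ?_ ?_
    · intro b hb
      obtain ⟨q, hq, i, hi⟩ := mem_iUnion₂.mp (hB hb)
      exact mem_iUnion₂.mpr ⟨q, hq, mem_iUnion.mpr ⟨i, hb.1 q hq, hi.symm⟩⟩
    · exact (Finset.countable_toSet Λ).biUnion fun q _ => countable_iUnion fun i => fib q _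
  -- choice of the point
  obtain ⟨en, hen⟩ := exists_surjective_nat (Option Str × ℕ)
  obtain ⟨b, hbEx, hbΘ⟩ := hΘ gb (fun n => μ (en n))
    (⋃ x : Str × Finset (Option Str × ℕ), B x.1 x.2)
    gb_cont (fun n => μ_cont _) (fun n t => μ_fib _ t) (countable_iUnion fun x => B_ctbl _ _)
  have hgood : ∀ j, Mov b j → ∀ k, gb b (D.a (cb b j.1 j.2) k) =
      gb b (ept (D.p (cb b j.1 j.2))) := by
    intro j hj k
    obtain ⟨n, hn⟩ := hen j
    have h1 := hbΘ n
    simp only [hn, μ, if_pos hj] at h1
    have h2 := hD (cb b j.1 j.2) k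
    rw [h1] at h2
    exact h2
  -- the limit values
  let w : Tr → Bool := fun t =>
    if hA : ∃ i, ¬ Mov b (D.p t, i) ∧ cb b (D.p t) i = t then vb b (D.p t) hA.choose
    else gb b (ept (D.p t))
  have hw : ∀ t, ∀ᶠ k in atTop, gb b (D.a t k) = w t := by
    intro t
    by_cases hA : ∃ i, ¬ Mov b (D.p t, i) ∧ cb b (D.p t) i = t
    · obtain ⟨hA1, hA2⟩ := hA.choose_spec
      have hwt : w t = vb b (D.p t) hA.choose := by simp only [w, dif_pos hA]
      rw [hwt]
      set i := hA.choose
      filter_upwards [eventually_ge_atTop (sb b (D.p t) i)] with k hk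
      let m := max (nκ (D.p t, i)) (max (nE (D.a t k)) (max (nV (D.p t) i) (nS (D.p t) i)))
      have hh := hrep (res b m)
      set h := rep (res b m)
      have e0 : c h (D.p t) i = t :=
        (const_lem b (D.p t, i) hA1 m (by simp only [m]; omega) h hh).trans hA2
      have e1 := gb_eq b (D.a t k) m (by simp only [m]; omega) h hh
      have e2 := vb_eq b (D.p t) i m (by simp only [m]; omega) h hh
      have e3 := sb_eq b (D.p t) i m (by simp only [m]; omega) h hh
      rw [e0] at e2 e3
      rw [← e1, ← e2]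
      exact hst h t k (by rw [e3]; exact hk)
    · have hwt : w t = gb b (ept (D.p t)) := by simp only [w, dif_neg hA]
      rw [hwt]
      by_cases hex : ∃ i, cb b (D.p t) i = t
      · obtain ⟨i, hi⟩ := hex
        have hmov : Mov b (D.p t, i) := by
          by_contra hm
          exact hA ⟨i, hm, hi⟩
        have := hgood (D.p t, i) hmov
        simp only [hi] at this
        exact Eventually.of_forall this
      · push Not at hex
        obtain ⟨n, hn⟩ := (modb b (D.p t)).sep hex
        exact star (D.h t) (condb b (D.p t)) hn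
  have hbmem : (Sum.elim (gb b) w : E ⊕ Tr → Bool) ∈ Alg D := by
    refine ⟨fun p => ⟨range (cb b p), (modb b p).thin, ?_⟩, fun t => ?_⟩
    · intro s x hsx hs
      simp only [Sum.elim_inl]
      apply condb b p s x hsx
      intro i hi
      exact hs ⟨_, ⟨i, rfl⟩, hi⟩
    · simpa only [Sum.elim_inl, Sum.elim_inr] using hw t
  let hb : CC D := ⟨Sum.elim (gb b) w, continuous_iff_mem_alg.mpr hbmem⟩
  refine ⟨hb, mem_univ _, ?_⟩
  rw [clusterPt_iff_frequently]
  intro U hU
  obtain ⟨Q, hQ⟩ := nhds_CC hU
  -- approximations at the points of Q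
  have happ : ∀ x : XX D, ∃ m0, ∃ Λ : Finset (Option Str × ℕ), (∀ q ∈ Λ, Mov b q) ∧
      ∀ m, m0 ≤ m → ∀ᶠ h in f, h ∈ S (res b m) →
        (∀ q ∈ Λ, ∀ i, c h q.1 i ≠ cb b q.1 q.2) → h.1 x = hb.1 x := by
    rintro (x | t)
    · refine ⟨nE x, ∅, by simp, fun m hm => Eventually.of_forall fun h hh _ => ?_⟩
      exact gb_eq b x m hm h hh
    · by_cases hA : ∃ i, ¬ Mov b (D.p t, i) ∧ cb b (D.p t) i = t
      · obtain ⟨hA1, hA2⟩ := hA.choose_spec
        have hwt : hb.1 (Sum.inr t) = vb b (D.p t) hA.choose := by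
          show w t = _
          simp only [w, dif_pos hA]
        rw [hwt]
        set i := hA.choose
        refine ⟨max (nκ (D.p t, i)) (nV (D.p t) i), ∅, by simp,
          fun m hm => Eventually.of_forall fun h hh _ => ?_⟩
        have e0 : c h (D.p t) i = t :=
          (const_lem b (D.p t, i) hA1 m (by omega) h hh).trans hA2
        have e2 := vb_eq b (D.p t) i m (by omega) h hh
        rw [e0] at e2
        exact e2
      · have hwt : hb.1 (Sum.inr t) = gb b (ept (D.p t)) := by
          show w t = _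
          simp only [w, dif_neg hA]
        rw [hwt]
        by_cases hB2 : ∃ i < nLb b (D.p t), cb b (D.p t) i = t
        · obtain ⟨i0, _, hi0⟩ := hB2
          have hmov : Mov b (D.p t, i0) := by
            by_contra hm
            exact hA ⟨i0, hm, hi0⟩
          refine ⟨nE (ept (D.p t)), {(D.p t, i0)}, by simpa using hmov,
            fun m hm => Eventually.of_forall fun h hh hq => ?_⟩
          have := hq (D.p t, i0) (Finset.mem_singleton_self _)
          simp only [hi0] at this
          rw [hkey h t this]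
          exact gb_eq b _ m hm h hh
        · push Not at hB2
          obtain ⟨n, hn⟩ := Modulus.sep_heads hB2
          obtain ⟨m1, hm1⟩ := res_eq b (D.p t) n (nLb b (D.p t))
          let Mx := Nb b (D.p t) n
          refine ⟨max (max m1 (nE (ept (D.p t)))) (max (max (nl (D.p t)) (nN (D.p t) n))
            ((Finset.range Mx).sup fun i => nκ (D.p t, i))), ∅, by simp, fun m hm => ?_⟩
          have hsm : ∀ᶠ h in f, ∀ i : ℕ, i < Mx → h ∈ S (res b m) → c h (D.p t) i ≠ t := by
            rw [eventually_countable_forall]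
            intro i
            by_cases hi : i < Mx
            · have hκm : nκ (D.p t, i) ≤ m := by
                have := Finset.le_sup (f := fun i => nκ (D.p t, i)) (Finset.mem_range.mpr hi)
                omega
              by_cases hmv : Mov b (D.p t, i)
              · have := mov_lem b (D.p t, i) hmv m hκm t
                rw [not_frequently] at this
                filter_upwards [this] with h hh _ hS hc
                exact hh ⟨hS, hc⟩
              · refine Eventually.of_forall fun h _ hS hc => ?_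
                have := const_lem b (D.p t, i) hmv m hκm h hS
                exact hA ⟨i, hmv, this.symm.trans hc⟩
            · exact Eventually.of_forall fun h hi' => absurd hi' hi
          filter_upwards [hsm] with h hh hS _
          have e1 := nLb_eq b (D.p t) m (by omega) h hS
          have e2 := Nb_eq b (D.p t) n m (by omega) h hS
          have e3 := hm1 m (by omega) h hS
          have : ∀ i, c h (D.p t) i ≠ t := by
            intro i hi
            by_cases hiM : i < Mx
            · exact hh i hiM hS hi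
            · obtain ⟨i', hi', he⟩ := hmod h (D.p t) n i (by rw [e2]; exact not_lt.mp hiM)
              rw [e1] at hi'
              rw [e3 i' hi', hi] at he
              exact hn i' hi' he.symm
          rw [hkey h t this]
          exact gb_eq b _ m (by omega) h hS
  choose m0 Λ hΛ happ using happ
  let m := Q.sup m0
  let Λt : Finset (Option Str × ℕ) := Q.biUnion Λ
  have hfreq : ∃ᶠ h in f, h ∈ S (res b m) ∧ ∀ q ∈ Λt, ∀ i, c h q.1 i ≠ cb b q.1 q.2 := by
    by_contra hcon
    apply hbEx
    refine mem_iUnion.mpr ⟨(res b m, Λt), ?_, hcon⟩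
    intro q hq
    obtain ⟨x, _, hx⟩ := Finset.mem_biUnion.mp hq
    exact hΛ x q hx
  have hevQ : ∀ᶠ h in f, ∀ x ∈ Q, h ∈ S (res b m) →
      (∀ q ∈ Λ x, ∀ i, c h q.1 i ≠ cb b q.1 q.2) → h.1 x = hb.1 x := by
    rw [Filter.eventually_all_finset]
    intro x hx
    exact happ x m (Finset.le_sup hx)
  refine (hfreq.and_eventually hevQ).mono ?_
  rintro h ⟨⟨hS, hq⟩, hx⟩
  apply hQ
  intro x hxQ
  exact hx x hxQ hS fun q hqx => hq q (Finset.mem_biUnion.mpr ⟨x, hxQ, hqx⟩)

end Pool.Agent.Hhelper60.Cp
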