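import Pool.Agent.Hhelper60.CpLindelof
import Pool.Agent.Hhelper60.CpFree

open Filter Set Topology

namespace Pool.Agent.Hhelper60.Cp

open PiNat (res)

/-- Every open cover has a point-finite open refinement. -/
def Metacompact (Y : Type*) [TopologicalSpace Y] : Prop :=
  ∀ U : Set (Set Y), (∀ u ∈ U, IsOpen u) → ⋃₀ U = univ →
    ∃ V : Set (Set Y), (∀ v ∈ V, IsOpen v) ∧ ⋃₀ V = univ ∧ (∀ v ∈ V, ∃ u ∈ U, v ⊆ u) ∧
      ∀ y, {v ∈ V | y ∈ v}.Finite

open Classical in
/-- The function on a branch of `K`. -/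
noncomputable def onF (K : Set Tr) : E → Bool := fun x =>
  decide (∃ t ∈ K, ∃ m n, x = node (res t m) (res t n))

open Classical in
/-- The function in the cone of `K`. -/
noncomputable def coneF (K : Set Tr) : E → Bool := fun x =>
  decide (∃ t ∈ K, ∃ m, x = ept (some (res t m)) ∨ ∃ s, x = node (res t m) s)

theorem onF_true {K : Set Tr} {x : E} :
    onF K x = true ↔ ∃ t ∈ K, ∃ m n, x = node (res t m) (res t n) := by
  simp [onF]

theorem coneF_true {K : Set Tr} {x : E} :
    coneF K x = true ↔ ∃ t ∈ K, ∃ m, x = ept (some (res t m)) ∨ ∃ s, x = node (res t m) s := by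
  simp [coneF]

theorem onF_node {K : Set Tr} {u s : Str} :
    onF K (node u s) = true ↔ ∃ t ∈ K, res t u.length = u ∧ res t s.length = s := by
  rw [onF_true]
  constructor
  · rintro ⟨t, ht, m, n, h⟩
    rw [node_inj] at h
    obtain ⟨rfl, rfl⟩ := h
    exact ⟨t, ht, by rw [PiNat.res_length], by rw [PiNat.res_length]⟩
  · rintro ⟨t, ht, h1, h2⟩
    exact ⟨t, ht, u.length, s.length, by rw [h1, h2]⟩

theorem onF_ept {K : Set Tr} {p : Option Str} : onF K (ept p) = false := by
  rw [Bool.eq_false_iff]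
  intro h
  rw [onF_true] at h
  obtain ⟨t, _, m, n, h⟩ := h
  exact ept_ne_node _ _ _ h

theorem coneF_node {K : Set Tr} {u s : Str} :
    coneF K (node u s) = true ↔ u ∈ tree K := by
  rw [coneF_true]
  constructor
  · rintro ⟨t, ht, m, h | ⟨s', h⟩⟩
    · exact absurd h (node_ne_ept _ _ _)
    · rw [node_inj] at h
      obtain ⟨rfl, _⟩ := h
      exact ⟨t, ht, by rw [PiNat.res_length]⟩
  · rintro ⟨t, ht, h⟩
    exact ⟨t, ht, u.length, Or.inr ⟨s, by rw [h]⟩⟩

theorem coneF_ept {K : Set Tr} {u : Str} :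
    coneF K (ept (some u)) = true ↔ u ∈ tree K := by
  rw [coneF_true]
  constructor
  · rintro ⟨t, ht, m, h | ⟨s', h⟩⟩
    · rw [ept_inj, Option.some_inj] at h
      subst h
      exact ⟨t, ht, by rw [PiNat.res_length]⟩
    · exact absurd h (ept_ne_node _ _ _)
  · rintro ⟨t, ht, h⟩
    exact ⟨t, ht, u.length, Or.inl (by rw [h])⟩

theorem coneF_none {K : Set Tr} : coneF K (ept none) = false := by
  rw [Bool.eq_false_iff]
  intro h
  rw [coneF_true] at h
  obtain ⟨t, _, m, h | ⟨s, h⟩⟩ := h
  · rw [ept_inj] at h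
    exact absurd h (by simp)
  · exact ept_ne_node _ _ _ h

theorem cond_onF {K : Set Tr} (hK : Thin K) (p : Option Str) : Cond p (onF K) := by
  refine ⟨K, hK, ?_⟩
  intro s x hx hs
  rw [onF_ept]
  cases p with
  | some u =>
    have hx' : x = node u s := hx
    rw [hx', Bool.eq_false_iff]
    intro h
    rw [onF_node] at h
    obtain ⟨t, ht, _, h2⟩ := h
    exact hs ⟨t, ht, h2⟩
  | none =>
    rcases hx with rfl | ⟨s', rfl⟩
    · exact onF_ept
    · rw [Bool.eq_false_iff]
      intro h
      rw [onF_node] at h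
      obtain ⟨t, ht, h2, _⟩ := h
      exact hs ⟨t, ht, h2⟩

theorem cond_coneF {K : Set Tr} (hK : Thin K) (p : Option Str) : Cond p (coneF K) := by
  refine ⟨K, hK, ?_⟩
  intro s x hx hs
  cases p with
  | some u =>
    have hx' : x = node u s := hx
    rw [hx', Bool.eq_iff_iff, coneF_node, coneF_ept]
  | none =>
    rw [coneF_none]
    rcases hx with rfl | ⟨s', rfl⟩
    · rw [Bool.eq_false_iff]
      intro h
      exact hs (coneF_ept.mp h)
    · rw [Bool.eq_false_iff]
      intro h
      exact hs (coneF_node.mp h)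

/-- Combinatorial closedness. -/
def ClK (K : Set Tr) : Prop := ∀ t, t ∉ K → ∃ n, ∀ c ∈ K, res c n ≠ res t n

theorem notMem_tree {K : Set Tr} {t : Tr} {n m : ℕ} (hn : ∀ c ∈ K, res c n ≠ res t n)
    (hm : n ≤ m) : res t m ∉ tree K := by
  intro h
  rw [res_mem_tree] at h
  obtain ⟨c, hc, he⟩ := h
  exact hn c hc (res_mono he hm)

theorem onF_mem (D : Data) {K K' : Set Tr} {t : Tr} (ht : t ∈ K) (ht' : t ∈ K') (k : ℕ) :
    onF K (D.a t k) = onF K' (D.a t k) := by
  have key : ∀ m n, onF K (node (res t m) (res t n)) = onF K' (node (res t m) (res t n)) := by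
    intro m n
    have h1 : onF K (node (res t m) (res t n)) = true := onF_true.mpr ⟨t, ht, m, n, rfl⟩
    have h2 : onF K' (node (res t m) (res t n)) = true := onF_true.mpr ⟨t, ht', m, n, rfl⟩
    rw [h1, h2]
  rcases (D.h t).kind with ⟨m, _, ha⟩ | ⟨_, ha⟩ | ⟨_, ha⟩
  · rw [ha k]; exact key _ _
  · rw [ha k, onF_ept, onF_ept]
  · obtain ⟨m, hm⟩ := ha k
    rw [hm]; exact key _ _

theorem coneF_mem (D : Data) {K : Set Tr} {t : Tr} (ht : t ∈ K) (k : ℕ) :
    coneF K (D.a t k) = true := by
  rw [coneF_true]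
  rcases (D.h t).kind with ⟨m, _, ha⟩ | ⟨_, ha⟩ | ⟨_, ha⟩
  · exact ⟨t, ht, m, Or.inr ⟨_, ha k⟩⟩
  · exact ⟨t, ht, _, Or.inl (ha k)⟩
  · obtain ⟨m, hm⟩ := ha k
    exact ⟨t, ht, _, Or.inr ⟨_, hm⟩⟩

theorem onF_notMem (D : Data) {K : Set Tr} (hK : ClK K) {t : Tr} (ht : t ∉ K) :
    ∀ᶠ k in atTop, onF K (D.a t k) = false := by
  obtain ⟨n, hn⟩ := hK t ht
  filter_upwards [(D.h t).tends.eventually_ge_atTop n] with k hk
  rw [Bool.eq_false_iff]
  intro h
  rcases (D.h t).kind with ⟨m, _, ha⟩ | ⟨_, ha⟩ | ⟨_, ha⟩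
  · rw [ha k, onF_node] at h
    obtain ⟨c, hc, _, h2⟩ := h
    exact notMem_tree hn hk ⟨c, hc, h2⟩
  · rw [ha k, onF_ept] at h
    exact absurd h (by simp)
  · obtain ⟨m, hm⟩ := ha k
    rw [hm, onF_node] at h
    obtain ⟨c, hc, h2, _⟩ := h
    exact notMem_tree hn hk ⟨c, hc, h2⟩

theorem coneF_notMem (D : Data) {K : Set Tr} (hK : ClK K) {t : Tr} (ht : t ∉ K)
    (hp : D.p t = none) : ∀ᶠ k in atTop, coneF K (D.a t k) = false := by
  obtain ⟨n, hn⟩ := hK t ht
  filter_upwards [(D.h t).tends.eventually_ge_atTop n] with k hk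
  rw [Bool.eq_false_iff]
  intro h
  rcases (D.h t).kind with ⟨m, hm, _⟩ | ⟨_, ha⟩ | ⟨_, ha⟩
  · rw [hp] at hm
    exact absurd hm (by simp)
  · rw [ha k, coneF_ept] at h
    exact notMem_tree hn hk h
  · obtain ⟨m, hm⟩ := ha k
    rw [hm, coneF_node] at h
    exact notMem_tree hn hk h

theorem coneF_some (D : Data) {K : Set Tr} {t : Tr} {m : ℕ}
    (hp : D.p t = some (res t m)) (k : ℕ) :
    coneF K (D.a t k) = true ↔ res t m ∈ tree K := by
  rcases (D.h t).kind with ⟨m', hm, ha⟩ | ⟨hp', _⟩ | ⟨hp', _⟩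
  · rw [ha k, coneF_node]
    rw [hp, Option.some_inj] at hm
    rw [hm]
  · rw [hp] at hp'
    exact absurd hp' (by simp)
  · rw [hp] at hp'
    exact absurd hp' (by simp)

theorem exists_onF (D : Data) {K : Set Tr} (hK : ClK K) (t : Tr) :
    ∃ v, ∀ᶠ k in atTop, onF K (D.a t k) = v := by
  by_cases ht : t ∈ K
  · rcases (D.h t).kind with ⟨m, _, ha⟩ | ⟨_, ha⟩ | ⟨_, ha⟩
    · exact ⟨true, Eventually.of_forall fun k => onF_true.mpr ⟨t, ht, _, _, ha k⟩⟩
    · exact ⟨false, Eventually.of_forall fun k => by rw [ha k, onF_ept]⟩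
    · refine ⟨true, Eventually.of_forall fun k => ?_⟩
      obtain ⟨m, hm⟩ := ha k
      exact onF_true.mpr ⟨t, ht, _, _, hm⟩
  · exact ⟨false, onF_notMem D hK ht⟩

theorem exists_coneF (D : Data) {K : Set Tr} (hK : ClK K) (t : Tr) :
    ∃ v, ∀ᶠ k in atTop, coneF K (D.a t k) = v := by
  by_cases ht : t ∈ K
  · exact ⟨true, Eventually.of_forall fun k => coneF_mem D ht k⟩
  · cases hp : D.p t with
    | none => exact ⟨false, coneF_notMem D hK ht hp⟩
    | some u =>
      have hu : ∃ m, u = res t m := by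
        rcases (D.h t).kind with ⟨m', hm, _⟩ | ⟨hp', _⟩ | ⟨hp', _⟩
        · rw [hp, Option.some_inj] at hm
          exact ⟨m', hm⟩
        · rw [hp] at hp'
          exact absurd hp' (by simp)
        · rw [hp] at hp'
          exact absurd hp' (by simp)
      obtain ⟨m, rfl⟩ := hu
      by_cases hm : res t m ∈ tree K
      · exact ⟨true, Eventually.of_forall fun k => (coneF_some D hp k).mpr hm⟩
      · exact ⟨false, Eventually.of_forall fun k => by
          rw [Bool.eq_false_iff]
          exact fun h => hm ((coneF_some D hp k).mp h)⟩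

/-- Extension of a function on `E` to the whole space. -/
noncomputable def mkCC (D : Data) (g : E → Bool) (h1 : ∀ p, Cond p g)
    (h2 : ∀ t, ∃ v, ∀ᶠ k in atTop, g (D.a t k) = v) : CC D :=
  ⟨Sum.elim g (fun t => (h2 t).choose), continuous_iff_mem_alg.mpr
    ⟨fun p => h1 p, fun t => (h2 t).choose_spec⟩⟩

theorem mkCC_inl (D : Data) (g : E → Bool) (h1 : ∀ p, Cond p g)
    (h2 : ∀ t, ∃ v, ∀ᶠ k in atTop, g (D.a t k) = v) (x : E) :
    (mkCC D g h1 h2).1 (Sum.inl x) = g x := rfl

theorem CC_inr_eq {D : Data} (h h' : CC D) (t : Tr)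
    (he : ∀ᶠ k in atTop, h.1 (Sum.inl (D.a t k)) = h'.1 (Sum.inl (D.a t k))) :
    h.1 (Sum.inr t) = h'.1 (Sum.inr t) := by
  have e1 := (continuous_iff_mem_alg.mp h.2).2 t
  have e2 := (continuous_iff_mem_alg.mp h'.2).2 t
  obtain ⟨k, ⟨h1, h2⟩, h3⟩ := ((e1.and e2).and he).exists
  rw [← h1, ← h2, h3]

theorem CC_inr_val {D : Data} (h : CC D) (t : Tr) {v : Bool}
    (he : ∀ᶠ k in atTop, h.1 (Sum.inl (D.a t k)) = v) : h.1 (Sum.inr t) = v := by
  have e1 := (continuous_iff_mem_alg.mp h.2).2 t
  obtain ⟨k, h1, h2⟩ := (e1.and he).exists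
  rw [← h1, h2]

theorem CC_ext {D : Data} (h h' : CC D) (he : ∀ x : E, h.1 (Sum.inl x) = h'.1 (Sum.inl x)) :
    h = h' := by
  apply Subtype.ext
  funext x
  rcases x with x | t
  · exact he x
  · exact CC_inr_eq h h' t (Eventually.of_forall fun k => he _)

/-- Good index sets. -/
structure GoodK (K : Set Tr) : Prop where
  thin : Thin K
  cl : ClK K

/-- The pair of functions attached to `K`. -/
noncomputable def FF (D : Data) (K : Set Tr) (hK : GoodK K) : CC D × CC D :=
  (mkCC D (onF K) (cond_onF hK.thin) (exists_onF D hK.cl),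
    mkCC D (coneF K) (cond_coneF hK.thin) (exists_coneF D hK.cl))

theorem good_singleton (t : Tr) : GoodK {t} := by
  refine ⟨⟨∅, fun n => (finite_singleton t).subset fun x hx => hx.1⟩, ?_⟩
  intro s hs
  have hne : t ≠ s := fun h => hs h.symm
  obtain ⟨n, hn⟩ := exists_res_ne hne
  refine ⟨n, ?_⟩
  rintro c rfl
  exact hn n le_rfl

/-- The points of the closed discrete set. -/
noncomputable def F1 (D : Data) (t : Tr) : CC D × CC D := FF D {t} (good_singleton t)

/-- The separating neighbourhoods. -/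
def UU (D : Data) (t : Tr) : Set (CC D × CC D) :=
  {q | q.1.1 (Sum.inr t) = (F1 D t).1.1 (Sum.inr t) ∧
    q.2.1 (Sum.inr t) = (F1 D t).2.1 (Sum.inr t)}

theorem continuous_eval (D : Data) (x : XX D) : Continuous (fun h : CC D => h.1 x) :=
  (continuous_apply x).comp continuous_subtype_val

theorem isOpen_UU (D : Data) (t : Tr) : IsOpen (UU D t) := by
  apply IsOpen.inter
  · exact (isOpen_discrete {(F1 D t).1.1 (Sum.inr t)}).preimage
      ((continuous_eval D (Sum.inr t)).comp continuous_fst)
  · exact (isOpen_discrete {(F1 D t).2.1 (Sum.inr t)}).preimage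
      ((continuous_eval D (Sum.inr t)).comp continuous_snd)

theorem mem_UU (D : Data) (t : Tr) : F1 D t ∈ UU D t := ⟨rfl, rfl⟩

theorem UU_sep (D : Data) {t t' : Tr} (h : F1 D t' ∈ UU D t) : t' = t := by
  by_contra hne
  have ht : t ∉ ({t'} : Set Tr) := fun h => hne h.symm
  have h1 : (F1 D t').1.1 (Sum.inr t) = false :=
    CC_inr_val _ _ (onF_notMem D (good_singleton t').cl ht)
  rcases (D.h t).kind with ⟨m, _, ha⟩ | ⟨hp, ha⟩ | ⟨_, ha⟩
  · have h2 : (F1 D t).1.1 (Sum.inr t) = true :=
      CC_inr_val _ _ (Eventually.of_forall fun k => onF_true.mpr ⟨t, rfl, _, _, ha k⟩)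
    have := h.1
    rw [h1, h2] at this
    exact absurd this (by simp)
  · have h2 : (F1 D t').2.1 (Sum.inr t) = false :=
      CC_inr_val _ _ (coneF_notMem D (good_singleton t').cl ht hp)
    have h3 : (F1 D t).2.1 (Sum.inr t) = true :=
      CC_inr_val _ _ (Eventually.of_forall fun k => coneF_mem D (K := {t}) (mem_singleton t) k)
    have := h.2
    rw [h2, h3] at this
    exact absurd this (by simp)
  · have h2 : (F1 D t).1.1 (Sum.inr t) = true :=
      CC_inr_val _ _ (Eventually.of_forall fun k => by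
        obtain ⟨m, hm⟩ := ha k
        exact onF_true.mpr ⟨t, rfl, _, _, hm⟩)
    have := h.1
    rw [h1, h2] at this
    exact absurd this (by simp)

theorem isClosed_range_F1 (D : Data) : IsClosed (range (F1 D)) := by
  let rest : CC D × CC D → (E → Bool) × (E → Bool) := fun q =>
    (fun x => q.1.1 (Sum.inl x), fun x => q.2.1 (Sum.inl x))
  have hrest : Continuous rest := by
    refine Continuous.prodMk ?_ ?_
    · exact continuous_pi fun x => (continuous_eval D (Sum.inl x)).comp continuous_fst
    · exact continuous_pi fun x => (continuous_eval D (Sum.inl x)).comp continuous_snd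
  let Φ : Tr → (E → Bool) × (E → Bool) := fun t => (onF {t}, coneF {t})
  have hΦ : Continuous Φ := by
    refine Continuous.prodMk ?_ ?_
    · refine continuous_pi fun x => ?_
      rcases x with ⟨u, s⟩ | p
      · refine continuous_of_cylinder _ (max u.length s.length) ?_
        intro b b' h
        have h1 := res_mono h (le_max_left u.length s.length)
        have h2 := res_mono h (le_max_right u.length s.length)
        rw [Bool.eq_iff_iff]
        show onF {b'} (node u s) = true ↔ onF {b} (node u s) = true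
        rw [onF_node, onF_node]
        simp only [mem_singleton_iff, exists_eq_left, h1, h2]
      · have : (fun t : Tr => onF {t} (Sum.inr p)) = fun _ => false := by
          funext t
          exact onF_ept
        rw [this]
        exact continuous_const
    · refine continuous_pi fun x => ?_
      rcases x with ⟨u, s⟩ | (_ | u)
      · refine continuous_of_cylinder _ u.length ?_
        intro b b' h
        rw [Bool.eq_iff_iff]
        show coneF {b'} (node u s) = true ↔ coneF {b} (node u s) = true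
        rw [coneF_node, coneF_node]
        simp only [tree, mem_singleton_iff, exists_eq_left, mem_ofPred_eq, h]
      · have : (fun t : Tr => coneF {t} (Sum.inr none)) = fun _ => false := by
          funext t
          exact coneF_none
        rw [this]
        exact continuous_const
      · refine continuous_of_cylinder _ u.length ?_
        intro b b' h
        rw [Bool.eq_iff_iff]
        show coneF {b'} (ept (some u)) = true ↔ coneF {b} (ept (some u)) = true
        rw [coneF_ept, coneF_ept]
        simp only [tree, mem_singleton_iff, exists_eq_left, mem_ofPred_eq, h]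
  have hcl : IsClosed (range Φ) := (isCompact_range hΦ).isClosed
  have heq : range (F1 D) = rest ⁻¹' range Φ := by
    ext q
    constructor
    · rintro ⟨t, rfl⟩
      exact ⟨t, rfl⟩
    · rintro ⟨t, ht⟩
      refine ⟨t, ?_⟩
      have h1 : ∀ x, onF {t} x = q.1.1 (Sum.inl x) := fun x => congrFun (congrArg Prod.fst ht) x
      have h2 : ∀ x, coneF {t} x = q.2.1 (Sum.inl x) := fun x => congrFun (congrArg Prod.snd ht) x
      exact Prod.ext (CC_ext _ _ h1) (CC_ext _ _ h2)
  rw [heq]
  exact hcl.preimage hrest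

theorem good_seq {b : Tr} {ts : ℕ → Tr} (h : ∀ j, res (ts j) j = res b j) :
    GoodK (insert b (range ts)) := by
  classical
  constructor
  · refine ⟨{b}, fun n => ?_⟩
    refine ((Finset.range n).finite_toSet.image ts).subset ?_
    rintro t ⟨ht, hc⟩
    have hbt := hc b (Finset.mem_singleton_self b)
    rcases ht with rfl | ⟨j, rfl⟩
    · exact absurd rfl hbt
    · have : j < n := by
        by_contra hj
        exact hbt (res_mono (h j) (not_lt.mp hj)).symm
      exact mem_image_of_mem ts (by simpa using this)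
  · intro t ht
    have hbt : b ≠ t := fun h => ht (Or.inl h.symm)
    obtain ⟨n, hn⟩ := exists_res_ne hbt
    obtain ⟨n', hn'⟩ := exists_sep_finset ((Finset.range n).image ts) t (by
      intro hmem
      obtain ⟨j, _, hj⟩ := Finset.mem_image.mp hmem
      exact ht (Or.inr ⟨j, hj⟩))
    refine ⟨max n n', ?_⟩
    rintro c (rfl | ⟨j, rfl⟩)
    · exact hn _ (le_max_left _ _)
    · by_cases hj : j < n
      · exact hn' _ (le_max_right _ _) _ (Finset.mem_image_of_mem ts (Finset.mem_range.mpr hj))
      · intro he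
        have h1 : res (ts j) n = res t n := res_mono he (le_max_left _ _)
        have h2 : res (ts j) n = res b n := res_mono (h j) (not_lt.mp hj)
        exact hn n le_rfl (h2.symm.trans h1)

/-- Length of the strings of a point of `E`. -/
def lenE : E → ℕ
  | Sum.inl q => max q.1.length q.2.length
  | Sum.inr none => 0
  | Sum.inr (some u) => u.length

/-- The level of a point of the space. -/
def lev (D : Data) : XX D → ℕ
  | Sum.inl x => lenE x
  | Sum.inr t => (D.p t).elim 0 List.length

theorem tree_agree {K : Set Tr} {t : Tr} {m : ℕ} (ht : t ∈ K)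
    (hK : ∀ c ∈ K, res c m = res t m) {u : Str} (hu : u.length ≤ m) :
    u ∈ tree K ↔ u ∈ tree {t} := by
  constructor
  · rintro ⟨c, hc, he⟩
    refine ⟨t, rfl, ?_⟩
    rw [← res_mono (hK c hc) hu, he]
  · rintro ⟨c, hc, he⟩
    rw [mem_singleton_iff] at hc
    subst hc
    exact ⟨c, ht, he⟩

theorem FF_agree (D : Data) {K : Set Tr} (hK : GoodK K) {t : Tr} (ht : t ∈ K) {m : ℕ}
    (hm : ∀ c ∈ K, res c m = res t m) (x : XX D) (hx : lev D x ≤ m)
    (hS : ∀ s, x = Sum.inr s → s ∈ K → s = t) :
    (FF D K hK).1.1 x = (F1 D t).1.1 x ∧ (FF D K hK).2.1 x = (F1 D t).2.1 x := by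
  rcases x with x | s
  · rcases x with ⟨u, s⟩ | p
    · have hu : u.length ≤ m := le_trans (le_max_left _ _) hx
      have hs : s.length ≤ m := le_trans (le_max_right _ _) hx
      constructor
      · show onF K (node u s) = onF {t} (node u s)
        rw [Bool.eq_iff_iff, onF_node, onF_node]
        constructor
        · rintro ⟨c, hc, h1, h2⟩
          exact ⟨t, rfl, by rw [← res_mono (hm c hc) hu, h1],
            by rw [← res_mono (hm c hc) hs, h2]⟩
        · rintro ⟨c, hc, h1, h2⟩
          rw [mem_singleton_iff] at hc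
          subst hc
          exact ⟨c, ht, h1, h2⟩
      · show coneF K (node u s) = coneF {t} (node u s)
        rw [Bool.eq_iff_iff, coneF_node, coneF_node]
        exact tree_agree ht hm hu
    · constructor
      · show onF K (ept p) = onF {t} (ept p)
        rw [onF_ept, onF_ept]
      · show coneF K (ept p) = coneF {t} (ept p)
        cases p with
        | none => rw [coneF_none, coneF_none]
        | some u =>
          rw [Bool.eq_iff_iff, coneF_ept, coneF_ept]
          exact tree_agree ht hm hx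
  · by_cases hsK : s ∈ K
    · have hst : s = t := hS s rfl hsK
      subst hst
      constructor
      · apply CC_inr_eq
        exact Eventually.of_forall fun k => onF_mem D (K' := {s}) hsK (mem_singleton s) k
      · apply CC_inr_eq
        refine Eventually.of_forall fun k => ?_
        show coneF K (D.a s k) = coneF {s} (D.a s k)
        rw [coneF_mem D hsK k, coneF_mem D (K := {s}) rfl k]
    · have hst : s ∉ ({t} : Set Tr) := by
        intro h
        rw [mem_singleton_iff] at h
        subst h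
        exact hsK ht
      constructor
      · apply CC_inr_eq
        filter_upwards [onF_notMem D hK.cl hsK, onF_notMem D (good_singleton t).cl hst]
          with k h1 h2
        show onF K (D.a s k) = onF {t} (D.a s k)
        rw [h1, h2]
      · apply CC_inr_eq
        cases hp : D.p s with
        | none =>
          filter_upwards [coneF_notMem D hK.cl hsK hp,
            coneF_notMem D (good_singleton t).cl hst hp] with k h1 h2
          show coneF K (D.a s k) = coneF {t} (D.a s k)
          rw [h1, h2]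
        | some u =>
          have hu : ∃ m, u = res s m := by
            rcases (D.h s).kind with ⟨m', hm, _⟩ | ⟨hp', _⟩ | ⟨hp', _⟩
            · rw [hp, Option.some_inj] at hm
              exact ⟨m', hm⟩
            · rw [hp] at hp'
              exact absurd hp' (by simp)
            · rw [hp] at hp'
              exact absurd hp' (by simp)
          obtain ⟨m', rfl⟩ := hu
          have hlen : (res s m').length ≤ m := by
            have h1 : (D.p s).elim 0 List.length ≤ m := hx
            rw [hp] at h1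
            exact h1
          refine Eventually.of_forall fun k => ?_
          show coneF K (D.a s k) = coneF {t} (D.a s k)
          rw [Bool.eq_iff_iff, coneF_some D hp, coneF_some D hp]
          exact tree_agree ht hm hlen

theorem nhds_CC_prod {D : Data} {h0 : CC D × CC D} {U : Set (CC D × CC D)} (hU : U ∈ 𝓝 h0) :
    ∃ Q : Finset (XX D), ∀ h : CC D × CC D,
      (∀ x ∈ Q, h.1.1 x = h0.1.1 x ∧ h.2.1 x = h0.2.1 x) → h ∈ U := by
  classical
  obtain ⟨U1, hU1, U2, hU2, hsub⟩ := mem_nhds_prod_iff.mp hU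
  obtain ⟨Q1, hQ1⟩ := nhds_CC hU1
  obtain ⟨Q2, hQ2⟩ := nhds_CC hU2
  letI : DecidableEq (XX D) := Classical.decEq _
  refine ⟨Q1 ∪ Q2, fun h hh => hsub ⟨?_, ?_⟩⟩
  · exact hQ1 _ fun x hx => (hh x (Finset.mem_union_left _ hx)).1
  · exact hQ2 _ fun x hx => (hh x (Finset.mem_union_right _ hx)).2

theorem not_metacompact (D : Data) : ¬ Metacompact (CC D × CC D) := by
  classical
  intro hmeta
  let 𝒰 : Set (Set (CC D × CC D)) := insert (range (F1 D))ᶜ (range (UU D))
  obtain ⟨𝒱, hVo, hVc, hVr, hVf⟩ := hmeta 𝒰 (by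
      rintro u (rfl | ⟨t, rfl⟩)
      · exact (isClosed_range_F1 D).isOpen_compl
      · exact isOpen_UU D t) (by
      rw [eq_univ_iff_forall]
      intro q
      by_cases hq : q ∈ range (F1 D)
      · obtain ⟨t, rfl⟩ := hq
        exact mem_sUnion.mpr ⟨UU D t, Or.inr ⟨t, rfl⟩, mem_UU D t⟩
      · exact mem_sUnion.mpr ⟨_, Or.inl rfl, hq⟩)
  have hV : ∀ t, ∃ V ∈ 𝒱, F1 D t ∈ V ∧ V ⊆ UU D t := by
    intro t
    have : F1 D t ∈ ⋃₀ 𝒱 := by rw [hVc]; trivial
    obtain ⟨V, hV, htV⟩ := mem_sUnion.mp this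
    obtain ⟨u, hu, hVu⟩ := hVr V hV
    rcases hu with rfl | ⟨t', rfl⟩
    · exact absurd ⟨t, rfl⟩ (hVu htV)
    · have := UU_sep D (hVu htV)
      subst this
      exact ⟨V, hV, htV, hVu⟩
  choose V hV1 hV2 hV3 using hV
  have hQ : ∀ t, ∃ Q : Finset (XX D), ∀ h : CC D × CC D,
      (∀ x ∈ Q, h.1.1 x = (F1 D t).1.1 x ∧ h.2.1 x = (F1 D t).2.1 x) → h ∈ V t := fun t =>
    nhds_CC_prod ((hVo _ (hV1 t)).mem_nhds (hV2 t))
  choose Q hQ using hQ
  letI : DecidableEq (XX D) := Classical.decEq _
  let S : Tr → Finset Tr := fun t => (Q t).preimage (fun s => (Sum.inr s : XX D))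
    (fun a _ b _ h => Sum.inr_injective h)
  let M : Tr → ℕ := fun t => (Q t).sup (lev D)
  obtain ⟨b, ts, m, hinj, hres, hfree, hb, hM, hm⟩ := free_seq S M
  have hG := good_seq hres
  have hmem : ∀ j, FF D _ hG ∈ V (ts j) := by
    intro j
    apply hQ
    intro x hx
    refine FF_agree D hG (t := ts j) (Or.inr ⟨j, rfl⟩) (m := m) ?_ x ?_ ?_
    · rintro c (rfl | ⟨i, rfl⟩)
      · exact (hm j).symm
      · rw [hm i, hm j]
    · exact le_trans (Finset.le_sup hx) (hM j)
    · rintro s rfl (rfl | ⟨i, rfl⟩)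
      · exfalso
        exact hb j (Finset.mem_preimage.mpr hx)
      · by_contra hne
        have hij : i ≠ j := by
          rintro rfl
          exact hne rfl
        exact hfree i j hij (Finset.mem_preimage.mpr hx)
  have hinjV : Function.Injective fun j => V (ts j) := by
    intro i j hij
    by_contra hne
    apply hinj i j hne
    simp only at hij
    have : F1 D (ts i) ∈ UU D (ts j) := hV3 (ts j) (hij ▸ hV2 (ts i))
    exact UU_sep D this
  exact Set.infinite_of_injective_forall_mem hinjV
    (s := {v ∈ 𝒱 | FF D _ hG ∈ v}) (fun j => ⟨hV1 _, hmem j⟩) (hVf _)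

end Pool.Agent.Hhelper60.Cp
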