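import Pool.Agent.Hhelper60.CpLemmaB

open Filter Set Topology

namespace Pool.Agent.Hhelper60.Cp

open PiNat (res)

/-- Finite binary strings. -/
abbrev Str := List Bool

/-- The countable set `E`: nodes `(u, s)`, the points `e_u`, and the point `∞`. -/
abbrev E := (Str × Str) ⊕ Option Str

/-- The node `(u, s)`. -/
def node (u s : Str) : E := Sum.inl (u, s)

/-- The point `e_u` (for `some u`) or `∞` (for `none`). -/
def ept (p : Option Str) : E := Sum.inr p

theorem node_inj {u s u' s' : Str} : node u s = node u' s' ↔ u = u' ∧ s = s' := by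
  simp [node]

theorem ept_inj {p q : Option Str} : ept p = ept q ↔ p = q := by
  simp [ept]

theorem node_ne_ept (u s : Str) (p : Option Str) : node u s ≠ ept p := by
  simp [node, ept]

theorem ept_ne_node (u s : Str) (p : Option Str) : ept p ≠ node u s := by
  simp [node, ept]

theorem res_mono {c t : Tr} {n n' : ℕ} (h : res c n = res t n) (hn : n' ≤ n) :
    res c n' = res t n' := by
  rw [PiNat.res_eq_res] at h ⊢
  exact fun m hm => h (lt_of_lt_of_le hm hn)

theorem exists_res_ne {c t : Tr} (h : c ≠ t) : ∃ n, ∀ m, n ≤ m → res c m ≠ res t m := by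
  obtain ⟨k, hk⟩ := Function.ne_iff.mp h
  refine ⟨k + 1, fun m hm he => hk ?_⟩
  rw [PiNat.res_eq_res] at he
  exact he (by omega)

/-- `At p s x`: the point `x` belongs to the zone of the limit point `p`, at the string `s`. -/
def At : Option Str → Str → E → Prop
  | some u, s, x => x = node u s
  | none, s, x => x = ept (some s) ∨ ∃ s', x = node s s'

/-- The sequences converging to the point `y_t`. -/
structure IsAsg (t : Tr) (p : Option Str) (a : ℕ → E) (l : ℕ → ℕ) : Prop where
  tends : Tendsto l atTop atTop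
  kind : (∃ m, p = some (res t m) ∧ ∀ k, a k = node (res t m) (res t (l k))) ∨
    (p = none ∧ ∀ k, a k = ept (some (res t (l k)))) ∨
    (p = none ∧ ∀ k, ∃ m, a k = node (res t (l k)) (res t m))

theorem IsAsg.at {t : Tr} {p : Option Str} {a : ℕ → E} {l : ℕ → ℕ} (h : IsAsg t p a l) (k : ℕ) :
    At p (res t (l k)) (a k) := by
  rcases h.kind with ⟨m, rfl, ha⟩ | ⟨rfl, ha⟩ | ⟨rfl, ha⟩
  · exact ha k
  · exact Or.inl (ha k)
  · obtain ⟨m, hm⟩ := ha k
    exact Or.inr ⟨_, hm⟩

/-- The pigeonhole principle: every two-valued function admits a good sequence at every `t`. -/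
theorem pigeonhole (g : E → Bool) (t : Tr) :
    ∃ p a l, IsAsg t p a l ∧ ∀ k, g (a k) = g (ept p) := by
  by_cases h1 : ∃ᶠ m in atTop, g (ept (some (res t m))) = g (ept none)
  · obtain ⟨l, hl, hlk⟩ := extraction_of_frequently_atTop h1
    exact ⟨none, fun k => ept (some (res t (l k))), l,
      ⟨hl.tendsto_atTop, Or.inr (Or.inl ⟨rfl, fun k => rfl⟩)⟩, hlk⟩
  by_cases h2 : ∃ m, ∃ᶠ n in atTop, g (node (res t m) (res t n)) = g (ept (some (res t m)))
  · obtain ⟨m, hm⟩ := h2
    obtain ⟨l, hl, hlk⟩ := extraction_of_frequently_atTop hm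
    exact ⟨some (res t m), fun k => node (res t m) (res t (l k)), l,
      ⟨hl.tendsto_atTop, Or.inl ⟨m, rfl, fun k => rfl⟩⟩, hlk⟩
  rw [not_frequently] at h1
  push Not at h2
  have h3 : ∀ m, ∃ n, g (node (res t m) (res t n)) ≠ g (ept (some (res t m))) := by
    intro m
    exact (h2 m).exists
  choose n hn using h3
  obtain ⟨M, hM⟩ := eventually_atTop.mp h1
  refine ⟨none, fun k => node (res t (M + k)) (res t (n (M + k))), fun k => M + k,
    ⟨tendsto_atTop_mono (fun k => Nat.le_add_left k M) tendsto_id,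
      Or.inr (Or.inr ⟨rfl, fun k => ⟨_, rfl⟩⟩)⟩, ?_⟩
  intro k
  have e1 := hM (M + k) (Nat.le_add_right M k)
  have e2 := hn (M + k)
  revert e1 e2
  simp only
  cases g (ept (some (res t (M + k)))) <;> cases g (ept none) <;>
    cases g (node (res t (M + k)) (res t (n (M + k)))) <;> simp

/-- The data defining the space. -/
structure Data where
  p : Tr → Option Str
  a : Tr → ℕ → E
  l : Tr → ℕ → ℕ
  h : ∀ t, IsAsg t (p t) (a t) (l t)

/-- A set of branches having finitely many limit points. -/
def Thin (K : Set Tr) : Prop :=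
  ∃ L : Finset Tr, ∀ n, {t ∈ K | ∀ c ∈ L, res c n ≠ res t n}.Finite

theorem Thin.union {K K' : Set Tr} (h : Thin K) (h' : Thin K') : Thin (K ∪ K') := by
  classical
  obtain ⟨L, hL⟩ := h
  obtain ⟨L', hL'⟩ := h'
  refine ⟨L ∪ L', fun n => ((hL n).union (hL' n)).subset ?_⟩
  rintro t ⟨ht | ht, hc⟩
  · exact Or.inl ⟨ht, fun c hcL => hc c (Finset.mem_union_left _ hcL)⟩
  · exact Or.inr ⟨ht, fun c hcL => hc c (Finset.mem_union_right _ hcL)⟩

theorem Thin.empty : Thin ∅ := ⟨∅, fun n => by simp⟩

theorem Thin.biUnion {α : Type*} (I : Finset α) (K : α → Set Tr) (h : ∀ i ∈ I, Thin (K i)) :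
    Thin (⋃ i ∈ I, K i) := by
  classical
  induction I using Finset.induction_on with
  | empty => simpa using Thin.empty
  | insert a s ha ih =>
    rw [Finset.set_biUnion_insert]
    exact (h a (Finset.mem_insert_self _ _)).union
      (ih fun i hi => h i (Finset.mem_insert_of_mem hi))

/-- The strings occurring as initial segments of members of `K`. -/
def tree (K : Set Tr) : Set Str := {s | ∃ t ∈ K, res t s.length = s}

theorem tree_mono {K K' : Set Tr} (h : K ⊆ K') : tree K ⊆ tree K' := by
  rintro s ⟨t, ht, hs⟩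
  exact ⟨t, h ht, hs⟩

theorem res_mem_tree {K : Set Tr} {t : Tr} {n : ℕ} :
    res t n ∈ tree K ↔ ∃ c ∈ K, res c n = res t n := by
  unfold tree
  simp only [mem_ofPred_eq, PiNat.res_length]

/-- The continuity condition at the limit point `p`. -/
def Cond (p : Option Str) (g : E → Bool) : Prop :=
  ∃ K, Thin K ∧ ∀ s x, At p s x → s ∉ tree K → g x = g (ept p)

/-- The algebra of functions. -/
def Alg (D : Data) : Set (E ⊕ Tr → Bool) :=
  {f | (∀ p, Cond p (fun x => f (Sum.inl x))) ∧
    ∀ t, ∀ᶠ k in atTop, f (Sum.inl (D.a t k)) = f (Sum.inr t)}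

/-- The (a priori non-separated) space. -/
def XX (_D : Data) : Type := E ⊕ Tr

/-- The evaluation map. -/
def ev (D : Data) : XX D → (Alg D → Bool) := fun x f => f.1 x

instance (D : Data) : TopologicalSpace (XX D) := TopologicalSpace.induced (ev D) inferInstance

theorem isInducing_ev (D : Data) : IsInducing (ev D) := ⟨rfl⟩

theorem local_finset {D : Data} {f : XX D → Bool} (hf : Continuous f) (x : XX D) :
    ∃ I : Finset (Alg D), ∀ y : XX D, (∀ g ∈ I, g.1 y = g.1 x) → f y = f x := by
  have ho : IsOpen {y | f y = f x} := (isOpen_discrete {f x}).preimage hf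
  obtain ⟨V, hV, hVe⟩ := isOpen_induced_iff.mp ho
  have hx : ev D x ∈ V := by
    have : x ∈ ev D ⁻¹' V := by rw [hVe]; rfl
    exact this
  obtain ⟨I, u, hu, hsub⟩ := isOpen_pi_iff.mp hV _ hx
  refine ⟨I, fun y hy => ?_⟩
  have : y ∈ ev D ⁻¹' V := by
    apply hsub
    intro g hg
    have h1 : ev D y g = ev D x g := hy g hg
    rw [h1]
    exact (hu g hg).2
  rw [hVe] at this
  exact this

theorem continuous_iff_mem_alg {D : Data} {f : XX D → Bool} :
    Continuous f ↔ f ∈ Alg D := by
  constructor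
  · intro hf
    refine ⟨fun p => ?_, fun t => ?_⟩
    · obtain ⟨I, hI⟩ := local_finset hf (Sum.inl (ept p))
      choose K hK1 hK2 using fun g : Alg D => g.2.1 p
      refine ⟨⋃ g ∈ I, K g, Thin.biUnion I K fun g _ => hK1 g, ?_⟩
      intro s x hsx hs
      apply hI
      intro g hg
      refine hK2 g s x hsx fun hmem => hs (tree_mono ?_ hmem)
      exact Set.subset_biUnion_of_mem (u := K) (show g ∈ (I : Set (Alg D)) from hg)
    · obtain ⟨I, hI⟩ := local_finset hf (Sum.inr t)
      have h1 : ∀ᶠ k in atTop, ∀ g ∈ I, g.1 (Sum.inl (D.a t k)) = g.1 (Sum.inr t) := by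
        rw [Filter.eventually_all_finset]
        intro g _
        exact g.2.2 t
      filter_upwards [h1] with k hk
      exact hI _ hk
  · intro hf
    have : f = (fun G : Alg D → Bool => G ⟨f, hf⟩) ∘ ev D := rfl
    rw [this]
    exact (continuous_apply _).comp continuous_induced_dom

end Pool.Agent.Hhelper60.Cp
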