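import Pool.Agent.Hhelper60.CpSpace

open Filter Set Topology

namespace Pool.Agent.Hhelper60.Cp

open PiNat (res)

theorem exists_sep_finset (L : Finset Tr) (t : Tr) (ht : t ∉ L) :
    ∃ n, ∀ m, n ≤ m → ∀ c ∈ L, res c m ≠ res t m := by
  classical
  have h1 : ∀ c : Tr, ∃ n, c ∈ L → ∀ m, n ≤ m → res c m ≠ res t m := by
    intro c
    by_cases hc : c ∈ L
    · have hne : c ≠ t := fun h => ht (h ▸ hc)
      obtain ⟨n, hn⟩ := exists_res_ne hne
      exact ⟨n, fun _ => hn⟩
    · exact ⟨0, fun h => absurd h hc⟩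
  choose n hn using h1
  exact ⟨L.sup n, fun m hm c hc => hn c hc m (le_trans (Finset.le_sup hc) hm)⟩

theorem thin_enum {K : Set Tr} (h : Thin K) :
    ∃ (nL : ℕ) (c : ℕ → Tr) (N : ℕ → ℕ), K ⊆ range c ∧
      ∀ n i, N n ≤ i → ∃ i' < nL, res (c i) n = res (c i') n := by
  classical
  obtain ⟨L, hL⟩ := h
  let t0 : Tr := fun _ => false
  let L' : Finset Tr := insert t0 L
  let R : Set Tr := {t | t ∈ K ∧ t ∉ L'}
  have hR : R.Countable := by
    have hsub : R ⊆ ⋃ n, {t ∈ K | ∀ c ∈ L, res c n ≠ res t n} := by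
      rintro t ⟨htK, htL⟩
      obtain ⟨n, hn⟩ := exists_sep_finset L t (fun h => htL (Finset.mem_insert_of_mem h))
      exact mem_iUnion.mpr ⟨n, htK, hn n le_rfl⟩
    exact (countable_iUnion fun n => (hL n).countable).mono hsub
  obtain ⟨κ, hκ⟩ := (Set.countable_iff_exists_injective).mp hR
  let e := L'.equivFin
  have hB : ∀ n, ∃ B, ∀ t : R, (∀ c ∈ L, res c n ≠ res t.1 n) → κ t < B := by
    intro n
    have hfin : {t : R | ∀ c ∈ L, res c n ≠ res t.1 n}.Finite := by
      apply Set.Finite.of_finite_image (f := Subtype.val) _ Subtype.val_injective.injOn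
      refine (hL n).subset ?_
      rintro _ ⟨t, ht, rfl⟩
      exact ⟨t.2.1, ht⟩
    obtain ⟨B, hB⟩ := (hfin.image κ).bddAbove
    exact ⟨B + 1, fun t ht => Nat.lt_succ_of_le (hB (mem_image_of_mem κ ht))⟩
  choose B hB using hB
  let c : ℕ → Tr := fun i =>
    if h : i < L'.card then (e.symm ⟨i, h⟩).1
    else if h' : ∃ t : R, κ t = i - L'.card then h'.choose.1 else t0
  have hc1 : ∀ x ∈ L', ∃ i < L'.card, c i = x := by
    intro x hx
    refine ⟨(e ⟨x, hx⟩).1, (e ⟨x, hx⟩).2, ?_⟩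
    simp only [c]
    rw [dif_pos (e ⟨x, hx⟩).2]
    simp
  refine ⟨L'.card, c, fun n => L'.card + B n, ?_, ?_⟩
  · intro t ht
    by_cases htL : t ∈ L'
    · obtain ⟨i, _, hi⟩ := hc1 t htL
      exact ⟨i, hi⟩
    · let t' : R := ⟨t, ht, htL⟩
      refine ⟨L'.card + κ t', ?_⟩
      have h1 : ¬ (L'.card + κ t' < L'.card) := by omega
      have h2 : ∃ s : R, κ s = L'.card + κ t' - L'.card := ⟨t', by omega⟩
      simp only [c, dif_neg h1, dif_pos h2]
      have h3 : h2.choose = t' := hκ (by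
        rw [h2.choose_spec]; omega)
      rw [h3]
  · intro n i hi
    replace hi : L'.card + B n ≤ i := hi
    have h1 : ¬ (i < L'.card) := by omega
    by_cases h2 : ∃ s : R, κ s = i - L'.card
    · have hci : c i = h2.choose.1 := by simp only [c, dif_neg h1, dif_pos h2]
      have h3 : ¬ ∀ c ∈ L, res c n ≠ res h2.choose.1 n := by
        intro hh
        have := hB n _ hh
        rw [h2.choose_spec] at this
        omega
      push Not at h3
      obtain ⟨x, hx, hxe⟩ := h3
      obtain ⟨i', hi', hci'⟩ := hc1 x (Finset.mem_insert_of_mem hx)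
      exact ⟨i', hi', by rw [hci, hci', hxe]⟩
    · have hci : c i = t0 := by simp only [c, dif_neg h1, dif_neg h2]
      obtain ⟨i', hi', hci'⟩ := hc1 t0 (Finset.mem_insert_self _ _)
      exact ⟨i', hi', by rw [hci, hci']⟩

/-- Modulus of convergence of a sequence of branches towards its first `nL` terms. -/
def Modulus (nL : ℕ) (c : ℕ → Tr) (N : ℕ → ℕ) : Prop :=
  ∀ n i, N n ≤ i → ∃ i' < nL, res (c i) n = res (c i') n

theorem Modulus.sep_tail {nL : ℕ} {c : ℕ → Tr} {N : ℕ → ℕ} (h : Modulus nL c N) {t : Tr}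
    (ht : ∀ i < nL, c i ≠ t) : ∃ n, ∀ i, N n ≤ i → res (c i) n ≠ res t n := by
  classical
  obtain ⟨n, hn⟩ := exists_sep_finset ((Finset.range nL).image c) t (by
    intro hmem
    obtain ⟨i, hi, hit⟩ := Finset.mem_image.mp hmem
    exact ht i (Finset.mem_range.mp hi) hit)
  refine ⟨n, fun i hi => ?_⟩
  obtain ⟨i', hi', he⟩ := h n i hi
  rw [he]
  exact hn n le_rfl _ (Finset.mem_image_of_mem c (Finset.mem_range.mpr hi'))

theorem Modulus.sep {nL : ℕ} {c : ℕ → Tr} {N : ℕ → ℕ} (h : Modulus nL c N) {t : Tr}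
    (ht : ∀ i, c i ≠ t) : ∃ n, ∀ i, res (c i) n ≠ res t n := by
  classical
  obtain ⟨n, hn⟩ := h.sep_tail (t := t) (fun i _ => ht i)
  obtain ⟨n', hn'⟩ := exists_sep_finset ((Finset.range (N n)).image c) t (by
    intro hmem
    obtain ⟨i, _, hit⟩ := Finset.mem_image.mp hmem
    exact ht i hit)
  refine ⟨max n n', fun i => ?_⟩
  by_cases hi : i < N n
  · exact hn' _ (le_max_right _ _) _ (Finset.mem_image_of_mem c (Finset.mem_range.mpr hi))
  · intro he
    exact hn i (not_lt.mp hi) (res_mono he (le_max_left _ _))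

theorem Modulus.isClosed {nL : ℕ} {c : ℕ → Tr} {N : ℕ → ℕ} (h : Modulus nL c N) :
    IsClosed (range c) := by
  rw [← isOpen_compl_iff, isOpen_iff_mem_nhds]
  intro t ht
  obtain ⟨n, hn⟩ := h.sep (t := t) (fun i hi => ht ⟨i, hi⟩)
  have : PiNat.cylinder t n ∈ 𝓝 t := by
    apply (PiNat.isOpen_cylinder (fun _ => Bool) t n).mem_nhds
    exact PiNat.self_mem_cylinder t n
  filter_upwards [this] with s hs
  rintro ⟨i, rfl⟩
  rw [PiNat.cylinder_eq_res] at hs
  exact hn i hs

/-- The main reference property: along the sequence of a non-critical `t` a function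
satisfying the continuity condition is eventually constant, with the reference value. -/
theorem star {t : Tr} {p : Option Str} {a : ℕ → E} {l : ℕ → ℕ} (hA : IsAsg t p a l)
    {g : E → Bool} {c : ℕ → Tr}
    (hg : ∀ s x, At p s x → (∀ i, res (c i) s.length ≠ s) → g x = g (ept p))
    {n : ℕ} (hn : ∀ i, res (c i) n ≠ res t n) :
    ∀ᶠ k in atTop, g (a k) = g (ept p) := by
  filter_upwards [hA.tends.eventually_ge_atTop n] with k hk
  apply hg _ _ (hA.at k)
  intro i he
  rw [PiNat.res_length] at he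
  exact hn i (res_mono he hk)

end Pool.Agent.Hhelper60.Cp
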