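import Pool.Agent.Hhelper60.CqCore
import Pool.Agent.Hhelper60.CpNonMeta

open Filter Set Topology

namespace Pool.Agent.Hhelper60.Cq

open PiNat (res)

open Pool.Agent.Hhelper60.Cp

/-- The zero branch. -/
def z0 : Tr := fun _ => false

/-- The branch `0^(l+1) 1 t`. -/
def pre (l : ℕ) (t : Tr) : Tr := fun n =>
  if n ≤ l then false else if n = l + 1 then true else t (n - (l + 2))

/-- The branch coding a sequence of branches. -/
def tip (κ : ℕ → Tr) : Tr := fun n =>
  if n = 0 then true else κ (n - 1).unpair.1 (n - 1).unpair.2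

/-- The index set of `κ`. -/
def KK (κ : ℕ → Tr) : Set Tr := insert z0 (range fun l => pre l (κ l)) ∪ {tip κ}

/-- The eventually zero branches. -/
def Bc : Set Tr := {t | ∃ n, ∀ m, n ≤ m → t m = false}

/-- The critical set. -/
def crit : Set Tr := {t | (∃ κ : ℕ → Tr, (∀ l, κ l ∈ Bc) ∧ t = tip κ) ∨
  ∃ l a, a ∉ Bc ∧ t = pre l a}

theorem pre_last (l : ℕ) (t : Tr) : pre l t (l + 1) = true := by
  simp [pre]

theorem pre_lt (l : ℕ) (t : Tr) {n : ℕ} (h : n ≤ l) : pre l t n = false := by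
  simp [pre, h]

theorem pre_add (l : ℕ) (t : Tr) (n : ℕ) : pre l t (n + (l + 2)) = t n := by
  have h1 : ¬ (n + (l + 2) ≤ l) := by omega
  have h2 : ¬ (n + (l + 2) = l + 1) := by omega
  simp only [pre, if_neg h1, if_neg h2, Nat.add_sub_cancel]

theorem pre_inj {l l' : ℕ} {t t' : Tr} (h : pre l t = pre l' t') : l = l' ∧ t = t' := by
  have hl : l = l' := by
    rcases lt_trichotomy l l' with hlt | he | hlt
    · have h1 := congrFun h (l + 1)
      rw [pre_last, pre_lt _ _ (by omega)] at h1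
      exact absurd h1 (by simp)
    · exact he
    · have h1 := congrFun h (l' + 1)
      rw [pre_last, pre_lt _ _ (by omega)] at h1
      exact absurd h1 (by simp)
  subst hl
  refine ⟨rfl, funext fun n => ?_⟩
  have := congrFun h (n + (l + 2))
  rwa [pre_add, pre_add] at this

theorem tip_zero (κ : ℕ → Tr) : tip κ 0 = true := by simp [tip]

theorem tip_ne_pre (κ : ℕ → Tr) (l : ℕ) (t : Tr) : tip κ ≠ pre l t := by
  intro h
  have := congrFun h 0
  rw [tip_zero, pre_lt _ _ (Nat.zero_le _)] at this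
  exact absurd this (by simp)

theorem tip_ne_z0 (κ : ℕ → Tr) : tip κ ≠ z0 := by
  intro h
  have := congrFun h 0
  rw [tip_zero] at this
  exact absurd this (by simp [z0])

theorem pre_ne_z0 (l : ℕ) (t : Tr) : pre l t ≠ z0 := by
  intro h
  have := congrFun h (l + 1)
  rw [pre_last] at this
  exact absurd this (by simp [z0])

theorem tip_inj {κ κ' : ℕ → Tr} (h : tip κ = tip κ') : κ = κ' := by
  funext l j
  have := congrFun h (Nat.pair l j + 1)
  simpa [tip] using this

theorem good_union {K K' : Set Tr} (h : GoodK K) (h' : GoodK K') : GoodK (K ∪ K') := by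
  refine ⟨h.thin.union h'.thin, fun t ht => ?_⟩
  obtain ⟨n, hn⟩ := h.cl t (fun hm => ht (Or.inl hm))
  obtain ⟨n', hn'⟩ := h'.cl t (fun hm => ht (Or.inr hm))
  refine ⟨max n n', ?_⟩
  rintro c (hc | hc) he
  · exact hn c hc (res_mono he (le_max_left _ _))
  · exact hn' c hc (res_mono he (le_max_right _ _))

theorem good_KK (κ : ℕ → Tr) : GoodK (KK κ) := by
  refine good_union (good_seq (b := z0) (ts := fun l => pre l (κ l)) ?_) (good_singleton _)
  intro j
  rw [PiNat.res_eq_res]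
  intro m hm
  show pre j (κ j) m = z0 m
  rw [pre_lt _ _ (by omega)]
  rfl

/-- Agreement of two sequences on the first `n` digits of the first `n` coordinates. -/
def Agree (n : ℕ) (κ κ' : ℕ → Tr) : Prop := ∀ l < n, ∀ j < n, κ' l j = κ l j

theorem Agree.mono {n n' : ℕ} {κ κ' : ℕ → Tr} (h : Agree n κ κ') (hn : n' ≤ n) :
    Agree n' κ κ' := fun l hl j hj => h l (by omega) j (by omega)

theorem Agree.symm {n : ℕ} {κ κ' : ℕ → Tr} (h : Agree n κ κ') : Agree n κ' κ :=
  fun l hl j hj => (h l hl j hj).symm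

theorem isOpen_agree (n : ℕ) (κ : ℕ → Tr) : IsOpen {κ' : ℕ → Tr | Agree n κ κ'} := by
  have : {κ' : ℕ → Tr | Agree n κ κ'} =
      ⋂ l ∈ Finset.range n, ⋂ j ∈ Finset.range n, {κ' : ℕ → Tr | κ' l j = κ l j} := by
    ext κ'
    simp only [Agree, mem_ofPred_eq, mem_iInter, Finset.mem_range]
  rw [this]
  refine isOpen_biInter_finset fun l _ => isOpen_biInter_finset fun j _ => ?_
  exact (isOpen_discrete {κ l j}).preimage
    ((continuous_apply j).comp (continuous_apply l : Continuous fun κ' : ℕ → Tr => κ' l))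

theorem exists_agree_subset {O : Set (ℕ → Tr)} (hO : IsOpen O) {κ : ℕ → Tr} (hκ : κ ∈ O) :
    ∃ n, ∀ κ', Agree n κ κ' → κ' ∈ O := by
  by_contra hcon
  push Not at hcon
  choose w hw1 hw2 using hcon
  have hlim : Tendsto w atTop (𝓝 κ) := by
    rw [tendsto_pi_nhds]
    intro l
    rw [tendsto_pi_nhds]
    intro j
    apply tendsto_const_nhds.congr'
    filter_upwards [eventually_gt_atTop (max l j)] with n hn
    exact (hw1 n l (lt_of_le_of_lt (le_max_left _ _) hn) j
      (lt_of_le_of_lt (le_max_right _ _) hn)).symm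
  obtain ⟨n, hn⟩ := (hlim.eventually (hO.mem_nhds hκ)).exists
  exact hw2 n hn

theorem KK_agree {n : ℕ} {κ κ' : ℕ → Tr} (h : Agree n κ κ') {c : Tr} (hc : c ∈ KK κ) :
    ∃ c' ∈ KK κ', res c' n = res c n := by
  rcases hc with (rfl | ⟨l, rfl⟩) | hc
  · exact ⟨z0, Or.inl (Or.inl rfl), rfl⟩
  · refine ⟨pre l (κ' l), Or.inl (Or.inr ⟨l, rfl⟩), ?_⟩
    rw [PiNat.res_eq_res]
    intro m hm
    by_cases h1 : m ≤ l
    · simp only [pre, if_pos h1]
    · by_cases h2 : m = l + 1
      · simp only [pre, if_neg h1, if_pos h2]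
      · simp only [pre, if_neg h1, if_neg h2]
        exact h l (by omega) _ (by omega)
  · rw [mem_singleton_iff] at hc
    subst hc
    refine ⟨tip κ', Or.inr rfl, ?_⟩
    rw [PiNat.res_eq_res]
    intro m hm
    by_cases h1 : m = 0
    · simp only [tip, if_pos h1]
    · simp only [tip, if_neg h1]
      have h2 := Nat.unpair_left_le (m - 1)
      have h3 := Nat.unpair_right_le (m - 1)
      exact h _ (by omega) _ (by omega)

theorem tree_KK {n : ℕ} {κ κ' : ℕ → Tr} (h : Agree n κ κ') {u : Str} (hu : u.length ≤ n) :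
    u ∈ tree (KK κ) ↔ u ∈ tree (KK κ') := by
  constructor
  · rintro ⟨c, hc, he⟩
    obtain ⟨c', hc', he'⟩ := KK_agree h hc
    exact ⟨c', hc', by rw [res_mono he' hu, he]⟩
  · rintro ⟨c, hc, he⟩
    obtain ⟨c', hc', he'⟩ := KK_agree h.symm hc
    exact ⟨c', hc', by rw [res_mono he' hu, he]⟩

theorem onF_KK {n : ℕ} {κ κ' : ℕ → Tr} (h : Agree n κ κ') {x : E} (hx : lenE x ≤ n) :
    onF (KK κ) x = onF (KK κ') x := by
  rcases x with ⟨u, s⟩ | p
  · have hu : u.length ≤ n := le_trans (le_max_left _ _) hx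
    have hs : s.length ≤ n := le_trans (le_max_right _ _) hx
    show onF (KK κ) (node u s) = onF (KK κ') (node u s)
    rw [Bool.eq_iff_iff, onF_node, onF_node]
    constructor
    · rintro ⟨c, hc, h1, h2⟩
      obtain ⟨c', hc', he'⟩ := KK_agree h hc
      exact ⟨c', hc', by rw [res_mono he' hu, h1], by rw [res_mono he' hs, h2]⟩
    · rintro ⟨c, hc, h1, h2⟩
      obtain ⟨c', hc', he'⟩ := KK_agree h.symm hc
      exact ⟨c', hc', by rw [res_mono he' hu, h1], by rw [res_mono he' hs, h2]⟩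
  · show onF (KK κ) (ept p) = onF (KK κ') (ept p)
    rw [onF_ept, onF_ept]

theorem coneF_KK {n : ℕ} {κ κ' : ℕ → Tr} (h : Agree n κ κ') {x : E} (hx : lenE x ≤ n) :
    coneF (KK κ) x = coneF (KK κ') x := by
  rcases x with ⟨u, s⟩ | (_ | u)
  · have hu : u.length ≤ n := le_trans (le_max_left _ _) hx
    show coneF (KK κ) (node u s) = coneF (KK κ') (node u s)
    rw [Bool.eq_iff_iff, coneF_node, coneF_node]
    exact tree_KK h hu
  · show coneF (KK κ) (ept none) = coneF (KK κ') (ept none)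
    rw [coneF_none, coneF_none]
  · show coneF (KK κ) (ept (some u)) = coneF (KK κ') (ept (some u))
    rw [Bool.eq_iff_iff, coneF_ept, coneF_ept]
    exact tree_KK h hx

theorem continuous_of_agree {Z : Type*} [TopologicalSpace Z] (F : (ℕ → Tr) → Z) (n : ℕ)
    (hF : ∀ κ κ', Agree n κ κ' → F κ' = F κ) : Continuous F := by
  apply IsLocallyConstant.continuous
  rw [IsLocallyConstant.iff_exists_open]
  intro κ
  exact ⟨{κ' | Agree n κ κ'}, isOpen_agree n κ, fun l _ j _ => rfl, fun κ' h => hF κ κ' h⟩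

theorem continuous_onF_KK : Continuous fun κ : ℕ → Tr => (onF (KK κ), coneF (KK κ)) := by
  refine Continuous.prodMk ?_ ?_
  · exact continuous_pi fun x => continuous_of_agree _ (lenE x)
      fun κ κ' h => (onF_KK h le_rfl).symm
  · exact continuous_pi fun x => continuous_of_agree _ (lenE x)
      fun κ κ' h => (coneF_KK h le_rfl).symm

/-- The sequences all of whose coordinates but the `k`-th one are eventually zero. -/
def PP (k : ℕ) : Set (ℕ → Tr) := {κ | κ k ∉ Bc ∧ ∀ j, j ≠ k → κ j ∈ Bc}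

theorem KK_crit {κ : ℕ → Tr} {k : ℕ} (hκ : κ ∈ PP k) {t : Tr} (ht : t ∈ KK κ) (hc : t ∈ crit) :
    t = pre k (κ k) := by
  rcases ht with (rfl | ⟨l, rfl⟩) | ht
  · rcases hc with ⟨κ', _, h⟩ | ⟨l, a, _, h⟩
    · exact absurd h.symm (tip_ne_z0 _)
    · exact absurd h.symm (pre_ne_z0 _ _)
  · rcases hc with ⟨κ', _, h⟩ | ⟨l', a, ha, h⟩
    · exact absurd h.symm (tip_ne_pre _ _ _)
    · obtain ⟨rfl, rfl⟩ := pre_inj h
      by_cases hl : l = k
      · subst hl; rfl
      · exact absurd (hκ.2 l hl) ha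
  · rw [mem_singleton_iff] at ht
    subst ht
    rcases hc with ⟨κ', h', h⟩ | ⟨l', a, ha, h⟩
    · have := tip_inj h
      subst this
      exact absurd (h' k) hκ.1
    · exact absurd h (tip_ne_pre _ _ _)

theorem pre_mem_KK (κ : ℕ → Tr) (k : ℕ) : pre k (κ k) ∈ KK κ := Or.inl (Or.inr ⟨k, rfl⟩)

theorem exists_crit (κ : ℕ → Tr) : ∃ t ∈ crit, t ∈ KK κ := by
  by_cases h : ∀ l, κ l ∈ Bc
  · exact ⟨tip κ, Or.inl ⟨κ, h, rfl⟩, Or.inr rfl⟩
  · push Not at h
    obtain ⟨l, hl⟩ := h
    exact ⟨pre l (κ l), Or.inr ⟨l, _, hl, rfl⟩, pre_mem_KK κ l⟩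

theorem Bc_countable : Bc.Countable := by
  have h1 : Bc ⊆ ⋃ n : ℕ, {t : Tr | ∀ m, n ≤ m → t m = false} := by
    rintro t ⟨n, hn⟩
    exact mem_iUnion.mpr ⟨n, hn⟩
  refine (countable_iUnion fun n => ?_).mono h1
  apply Set.countable_of_injective_of_countable_image (f := fun t : Tr => res t n) _
    (Set.to_countable _)
  intro t ht t' ht' he
  simp only at he
  rw [PiNat.res_eq_res] at he
  funext m
  by_cases hm : m < n
  · exact he hm
  · rw [ht m (by omega), ht' m (by omega)]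

theorem meagre_Bc : IsMeagre Bc := by
  have h1 : Bc = ⋃ b ∈ Bc, {b} := by
    ext x; simp
  rw [h1]
  refine isMeagre_biUnion Bc_countable fun b _ => ?_
  apply IsNowhereDense.isMeagre
  rw [isClosed_singleton.isNowhereDense_iff, eq_empty_iff_forall_notMem]
  intro x hx
  have hxb : x ∈ ({b} : Set Tr) := interior_subset hx
  rw [mem_singleton_iff] at hxb
  subst hxb
  have hmem : interior ({x} : Set Tr) ∈ 𝓝 x := isOpen_interior.mem_nhds hx
  have hcont : Tendsto (fun n : ℕ => Function.update x n (!x n)) atTop (𝓝 x) := by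
    rw [tendsto_pi_nhds]
    intro j
    apply tendsto_const_nhds.congr'
    filter_upwards [eventually_gt_atTop j] with n hn
    rw [Function.update_of_ne (by omega)]
  obtain ⟨n, hn⟩ := (hcont.eventually hmem).exists
  have h2 : Function.update x n (!x n) ∈ ({x} : Set Tr) := interior_subset hn
  rw [mem_singleton_iff] at h2
  have h3 := congrFun h2 n
  rw [Function.update_self] at h3
  cases hx : x n <;> simp [hx] at h3

theorem not_meagre_compl {W : Set Tr} (hW : IsOpen W) (hne : W.Nonempty) :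
    ¬ IsMeagre {a | a ∉ Bc ∧ a ∈ W} := by
  intro h
  apply not_isMeagre_of_isOpen hW hne
  refine (h.union meagre_Bc).mono ?_
  intro a ha
  by_cases hb : a ∈ Bc
  · exact Or.inr hb
  · exact Or.inl ⟨hb, ha⟩

/-- The combinatorial core in the form used below. -/
theorem core_agree (nn : ℕ → (ℕ → Tr) → ℕ) :
    ∃ κs : ℕ → Tr, ∀ l, κs l ∉ Bc ∧ ∃ κ ∈ PP l, κ l = κs l ∧ Agree (nn l κ) κ κs := by
  classical
  let G : ℕ → Tr → Set (ℕ → Tr) := fun k a =>
    ⋃ κ ∈ {κ : ℕ → Tr | κ ∈ PP k ∧ κ k = a}, {κ' | Agree (nn k κ) κ κ'}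
  obtain ⟨κs, hκs⟩ := core_cat (fun _ => Bcᶜ) G
    (fun k a => isOpen_biUnion fun κ _ => isOpen_agree _ _) (by
      rintro k O hO ⟨κ0, hκ0⟩
      obtain ⟨m, hm⟩ := exists_agree_subset hO hκ0
      have hWo : IsOpen (PiNat.cylinder (κ0 k) m) := PiNat.isOpen_cylinder (fun _ => Bool) _ _
      intro hmeag
      apply not_meagre_compl hWo ⟨κ0 k, PiNat.self_mem_cylinder _ _⟩
      refine hmeag.mono ?_
      rintro a ⟨ha, haW⟩
      let κ : ℕ → Tr := fun j => if j = k then a else fun i => if i < m then κ0 j i else false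
      have hκk : κ k = a := by simp [κ]
      have hκP : κ ∈ PP k := by
        refine ⟨by rw [hκk]; exact ha, fun j hj => ⟨m, fun i hi => ?_⟩⟩
        simp only [κ, if_neg hj]
        rw [if_neg (by omega)]
      refine ⟨ha, κ, hm κ ?_, ?_, hκk⟩
      · intro l hl j hj
        by_cases hlk : l = k
        · subst hlk
          rw [hκk]
          exact (PiNat.mem_cylinder_iff.mp haW) j hj
        · simp only [κ, if_neg hlk, if_pos hj]
      · exact mem_iUnion₂.mpr ⟨κ, ⟨hκP, hκk⟩, fun l _ j _ => rfl⟩)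
  refine ⟨κs, fun l => ⟨(hκs l).1, ?_⟩⟩
  obtain ⟨κ, ⟨h1, h2⟩, h3⟩ := mem_iUnion₂.mp (hκs l).2
  exact ⟨κ, h1, h2, h3⟩

end Pool.Agent.Hhelper60.Cq
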