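import Pool.Agent.Hhelper60.CpFusion

open Filter Set Topology

namespace Pool.Agent.Hhelper60.Cq

open Pool.Agent.Hhelper60.Cp

/-- The values at the coordinate `k` of the witnesses extending a prefix. -/
def QQ (A : ℕ → Set Tr) (G : ℕ → Tr → Set (ℕ → Tr)) (n : ℕ) (s : ℕ → Tr) (k : ℕ)
    (B : Set (ℕ → Tr)) : Set Tr :=
  {a | a ∈ A k ∧ ∃ κ, κ ∈ B ∧ κ ∈ G k a ∧ κ k = a ∧ ∀ j < n, κ j = s j}

theorem QQ_mono {A : ℕ → Set Tr} {G : ℕ → Tr → Set (ℕ → Tr)} {n : ℕ} {s : ℕ → Tr} {k : ℕ}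
    {B B' : Set (ℕ → Tr)} (h : B ⊆ B') : QQ A G n s k B ⊆ QQ A G n s k B' := by
  rintro a ⟨h1, κ, h2, h3, h4, h5⟩
  exact ⟨h1, κ, h h2, h3, h4, h5⟩

/-- Good states of the recursion. -/
structure GoodS (A : ℕ → Set Tr) (G : ℕ → Tr → Set (ℕ → Tr)) (n : ℕ) (s : ℕ → Tr)
    (O : Set (ℕ → Tr)) : Prop where
  isOpen : IsOpen O
  meets : ∃ κ ∈ O, ∀ j < n, κ j = s j
  promise : ∀ k, n ≤ k → ∀ B, IsOpen B → B ⊆ O → (∃ κ ∈ B, ∀ j < n, κ j = s j) →
    ¬ IsMeagre (QQ A G n s k B)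

theorem GoodS.step {A : ℕ → Set Tr} {G : ℕ → Tr → Set (ℕ → Tr)} (hG : ∀ k a, IsOpen (G k a))
    {n : ℕ} {s : ℕ → Tr} {O : Set (ℕ → Tr)} (h : GoodS A G n s O) :
    ∃ a O', a ∈ A n ∧ closure O' ⊆ O ∩ G n a ∧ GoodS A G (n + 1) (Function.update s n a) O' := by
  classical
  let 𝓑 := TopologicalSpace.countableBasis (ℕ → Tr)
  have h𝓑 : TopologicalSpace.IsTopologicalBasis 𝓑 :=
    TopologicalSpace.isBasis_countableBasis (ℕ → Tr)
  have h𝓑c : 𝓑.Countable := TopologicalSpace.countable_countableBasis (ℕ → Tr)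
  have : Countable 𝓑 := h𝓑c.to_subtype
  have h0 : ¬ IsMeagre (QQ A G n s n O) := h.promise n le_rfl O h.isOpen Subset.rfl h.meets
  have h1 : ∀ x ∈ QQ A G n s n O, ∃ B ∈ 𝓑, closure B ⊆ O ∩ G n x ∧
      ∃ κ ∈ B, κ n = x ∧ ∀ j < n, κ j = s j := by
    rintro x ⟨_, κ, h2, h3, h4, h5⟩
    obtain ⟨B, hB, hκB, hBO⟩ := h𝓑.exists_closure_subset
      ((h.isOpen.inter (hG n x)).mem_nhds ⟨h2, h3⟩)
    exact ⟨B, hB, hBO, κ, hκB, h4, h5⟩
  by_contra hcon
  have h2 : ∀ x ∈ QQ A G n s n O, ∃ (k : ℕ) (B : 𝓑), n + 1 ≤ k ∧ B.1 ⊆ O ∧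
      (∃ κ ∈ B.1, κ n = x ∧ ∀ j < n, κ j = s j) ∧
      IsMeagre (QQ A G (n + 1) (Function.update s n x) k B.1) := by
    intro x hx
    obtain ⟨B, hB, hBc, κ, hκB, hκn, hκs⟩ := h1 x hx
    by_contra hno
    apply hcon
    refine ⟨x, B, hx.1, hBc, h𝓑.isOpen hB, ⟨κ, hκB, ?_⟩, ?_⟩
    · intro j hj
      rcases Nat.lt_succ_iff_lt_or_eq.mp hj with hlt | rfl
      · rw [Function.update_of_ne (by omega)]
        exact hκs j hlt
      · rw [Function.update_self]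
        exact hκn
    · intro k hk B' hB'o hB'B hB'm hmeag
      apply hno
      obtain ⟨κ', hκ'B, hκ's⟩ := hB'm
      obtain ⟨B'', hB'', hκ'', hB''sub⟩ := h𝓑.exists_subset_of_mem_open hκ'B hB'o
      refine ⟨k, ⟨B'', hB''⟩, hk, ?_, ⟨κ', hκ'', ?_, ?_⟩, ?_⟩
      · exact hB''sub.trans (hB'B.trans (subset_closure.trans (hBc.trans inter_subset_left)))
      · have := hκ's n (by omega)
        rwa [Function.update_self] at this
      · intro j hj
        have := hκ's j (by omega)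
        rwa [Function.update_of_ne (by omega)] at this
      · exact hmeag.mono (QQ_mono hB''sub)
  -- the countable decomposition
  let XS : ℕ × 𝓑 → Set Tr := fun q => {x | x ∈ QQ A G n s n O ∧ n + 1 ≤ q.1 ∧ q.2.1 ⊆ O ∧
      (∃ κ ∈ q.2.1, κ n = x ∧ ∀ j < n, κ j = s j) ∧
      IsMeagre (QQ A G (n + 1) (Function.update s n x) q.1 q.2.1)}
  have h3 : ∃ q, ¬ IsMeagre (XS q) := by
    by_contra hall
    push Not at hall
    apply h0
    refine (isMeagre_iUnion hall).mono ?_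
    intro x hx
    obtain ⟨k, B, h4⟩ := h2 x hx
    exact mem_iUnion.mpr ⟨(k, B), hx, h4⟩
  obtain ⟨⟨k, B⟩, hX⟩ := h3
  set X' := XS (k, B) with hX'
  have h4 : (interior (closure X')).Nonempty := by
    rw [nonempty_iff_ne_empty]
    intro he
    exact hX (IsNowhereDense.isMeagre he)
  set W := interior (closure X') with hW
  have hWo : IsOpen W := isOpen_interior
  obtain ⟨w, hw⟩ := h4
  obtain ⟨x0, hx0W, hx0X⟩ := mem_closure_iff.mp (interior_subset hw) W hWo hw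
  obtain ⟨_, hk, hBO, ⟨κ0, hκ0B, hκ0n, hκ0s⟩, _⟩ := hx0X
  have hBo : IsOpen B.1 := h𝓑.isOpen B.2
  have hpr : IsOpen {κ : ℕ → Tr | κ n ∈ W} := hWo.preimage (continuous_apply n)
  have h5 := h.promise k (by omega) (B.1 ∩ {κ | κ n ∈ W}) (hBo.inter hpr)
    (inter_subset_left.trans hBO) ⟨κ0, ⟨hκ0B, by
      show κ0 n ∈ W
      rw [hκ0n]; exact hx0W⟩, hκ0s⟩
  obtain ⟨D1, hD1c, hD1d⟩ := TopologicalSpace.exists_countable_dense ↥X'
  have hcl : X' ⊆ closure (Subtype.val '' D1) := Subtype.dense_iff.mp hD1d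
  apply h5
  refine (isMeagre_biUnion hD1c (f := fun x : X' =>
    QQ A G (n + 1) (Function.update s n x.1) k B.1) (fun x _ => x.2.2.2.2.2)).mono ?_
  rintro a ⟨ha, κ, ⟨hκB, hκW⟩, hκG, hκk, hκs⟩
  have hcont : Continuous fun y : Tr => Function.update κ n y :=
    continuous_const.update n continuous_id
  have hopen : IsOpen {y : Tr | Function.update κ n y ∈ B.1 ∩ G k a} :=
    (hBo.inter (hG k a)).preimage hcont
  have hmem : κ n ∈ {y : Tr | Function.update κ n y ∈ B.1 ∩ G k a} := by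
    show Function.update κ n (κ n) ∈ B.1 ∩ G k a
    rw [Function.update_eq_self]
    exact ⟨hκB, hκG⟩
  have hκcl : κ n ∈ closure (Subtype.val '' D1) := by
    have h6 : κ n ∈ closure X' := interior_subset hκW
    exact closure_minimal hcl isClosed_closure h6
  obtain ⟨_, hy, ⟨x, hxD, rfl⟩⟩ := mem_closure_iff.mp hκcl _ hopen hmem
  refine mem_iUnion₂.mpr ⟨x, hxD, ha, Function.update κ n x.1, hy.1, hy.2, ?_, ?_⟩
  · rw [Function.update_of_ne (by omega)]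
    exact hκk
  · intro j hj
    rcases Nat.lt_succ_iff_lt_or_eq.mp hj with hlt | rfl
    · rw [Function.update_of_ne (by omega), Function.update_of_ne (by omega)]
      exact hκs j hlt
    · rw [Function.update_self, Function.update_self]

/-- The category theorem. -/
theorem core_cat (A : ℕ → Set Tr) (G : ℕ → Tr → Set (ℕ → Tr)) (hG : ∀ k a, IsOpen (G k a))
    (hbase : ∀ k (O : Set (ℕ → Tr)), IsOpen O → O.Nonempty →
      ¬ IsMeagre {a | a ∈ A k ∧ ∃ κ, κ ∈ O ∧ κ ∈ G k a ∧ κ k = a}) :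
    ∃ κ : ℕ → Tr, ∀ l, κ l ∈ A l ∧ κ ∈ G l (κ l) := by
  classical
  have h0 : GoodS A G 0 (fun _ _ => false) univ := by
    refine ⟨isOpen_univ, ⟨fun _ _ => false, mem_univ _,
      fun j hj => absurd hj (Nat.not_lt_zero j)⟩, ?_⟩
    intro k _ B hB _ hBm hmeag
    obtain ⟨κ, hκ, _⟩ := hBm
    refine hbase k B hB ⟨κ, hκ⟩ (hmeag.mono ?_)
    rintro a ⟨ha, κ', h1, h2, h3⟩
    exact ⟨ha, κ', h1, h2, h3, fun j hj => absurd hj (Nat.not_lt_zero j)⟩
  have hstep : ∀ (n : ℕ) (x : {x : (ℕ → Tr) × Set (ℕ → Tr) // GoodS A G n x.1 x.2}),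
      ∃ (a : Tr) (y : {y : (ℕ → Tr) × Set (ℕ → Tr) // GoodS A G (n + 1) y.1 y.2}),
        a ∈ A n ∧ closure y.1.2 ⊆ x.1.2 ∩ G n a ∧ y.1.1 = Function.update x.1.1 n a := by
    intro n x
    obtain ⟨a, O', h1, h2, h3⟩ := GoodS.step hG x.2
    exact ⟨a, ⟨(_, O'), h3⟩, h1, h2, rfl⟩
  choose av nx hnx1 hnx2 hnx3 using hstep
  let S : ∀ n, {x : (ℕ → Tr) × Set (ℕ → Tr) // GoodS A G n x.1 x.2} := fun n =>
    Nat.rec ⟨(_, _), h0⟩ (fun n x => nx n x) n
  have hS : ∀ n, S (n + 1) = nx n (S n) := fun n => rfl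
  let κs : ℕ → Tr := fun n => av n (S n)
  have hpre : ∀ n, ∀ j < n, (S n).1.1 j = κs j := by
    intro n
    induction n with
    | zero => intro j hj; exact absurd hj (Nat.not_lt_zero j)
    | succ n ih =>
      intro j hj
      rw [hS, hnx3]
      rcases Nat.lt_succ_iff_lt_or_eq.mp hj with hlt | rfl
      · rw [Function.update_of_ne (by omega)]
        exact ih j hlt
      · rw [Function.update_self]
  have hsub : ∀ n, (S (n + 1)).1.2 ⊆ (S n).1.2 := by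
    intro n
    rw [hS]
    exact subset_closure.trans ((hnx2 n (S n)).trans inter_subset_left)
  have hanti : ∀ n m, n ≤ m → (S m).1.2 ⊆ (S n).1.2 := by
    intro n m hnm
    induction m, hnm using Nat.le_induction with
    | base => exact Subset.rfl
    | succ m _ ih => exact (hsub m).trans ih
  choose w hwO hws using fun n => (S n).2.meets
  have hlim : Tendsto w atTop (𝓝 κs) := by
    rw [tendsto_pi_nhds]
    intro j
    apply tendsto_const_nhds.congr'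
    filter_upwards [eventually_gt_atTop j] with n hn
    rw [hws n j hn, hpre n j hn]
  refine ⟨κs, fun l => ⟨hnx1 l (S l), ?_⟩⟩
  have h1 : κs ∈ closure (S (l + 1)).1.2 := by
    apply mem_closure_of_tendsto hlim
    filter_upwards [eventually_ge_atTop (l + 1)] with n hn
    exact hanti _ _ hn (hwO n)
  have h2 := hnx2 l (S l)
  rw [← hS] at h2
  exact (h2 h1).2

end Pool.Agent.Hhelper60.Cq
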