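import Pool.Agent.Hhelper60.CqLindelof
import Pool.Agent.Hhelper60.CqCode

open Filter Set Topology

namespace Pool.Agent.Hhelper60.Cq

open PiNat (res)

open Pool.Agent.Hhelper60.Cp

theorem onF_mem (D : Data) {K K' : Set Tr} {t : Tr} (ht : t ∈ K) (ht' : t ∈ K') (k : ℕ) :
    onF K (D.a t k) = onF K' (D.a t k) := by
  have key : ∀ m n, onF K (node (res t m) (res t n)) = onF K' (node (res t m) (res t n)) := by
    intro m n
    have h1 : onF K (node (res t m) (res t n)) = true := onF_true.mpr ⟨t, ht, m, n, rfl⟩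
    have h2 : onF K' (node (res t m) (res t n)) = true := onF_true.mpr ⟨t, ht', m, n, rfl⟩
    rw [h1, h2]
  by_cases hA : t ∈ D.A
  · rcases (D.h t hA).kind with ⟨m, _, ha⟩ | ⟨_, ha⟩ | ⟨_, ha⟩
    · rw [ha k]; exact key _ _
    · rw [ha k, onF_ept, onF_ept]
    · obtain ⟨m, hm⟩ := ha k
      rw [hm]; exact key _ _
  · rw [(D.h' t hA).2 k, onF_ept, onF_ept]

theorem coneF_mem (D : Data) {K : Set Tr} {t : Tr} (hA : t ∈ D.A) (ht : t ∈ K) (k : ℕ) :
    coneF K (D.a t k) = true := by
  rw [coneF_true]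
  rcases (D.h t hA).kind with ⟨m, _, ha⟩ | ⟨_, ha⟩ | ⟨_, ha⟩
  · exact ⟨t, ht, m, Or.inr ⟨_, ha k⟩⟩
  · exact ⟨t, ht, _, Or.inl (ha k)⟩
  · obtain ⟨m, hm⟩ := ha k
    exact ⟨t, ht, _, Or.inr ⟨_, hm⟩⟩

theorem onF_notA (D : Data) {K : Set Tr} {t : Tr} (hA : t ∉ D.A) (k : ℕ) :
    onF K (D.a t k) = false := by
  rw [(D.h' t hA).2 k, onF_ept]

theorem coneF_notA (D : Data) {K : Set Tr} {t : Tr} (hA : t ∉ D.A) (k : ℕ) :
    coneF K (D.a t k) = false := by
  rw [(D.h' t hA).2 k, coneF_none]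

theorem onF_notMem (D : Data) {K : Set Tr} (hK : ClK K) {t : Tr} (ht : t ∉ K) :
    ∀ᶠ k in atTop, onF K (D.a t k) = false := by
  by_cases hA : t ∈ D.A
  · obtain ⟨n, hn⟩ := hK t ht
    filter_upwards [(D.h t hA).tends.eventually_ge_atTop n] with k hk
    rw [Bool.eq_false_iff]
    intro h
    rcases (D.h t hA).kind with ⟨m, _, ha⟩ | ⟨_, ha⟩ | ⟨_, ha⟩
    · rw [ha k, onF_node] at h
      obtain ⟨c, hc, _, h2⟩ := h
      exact notMem_tree hn hk ⟨c, hc, h2⟩
    · rw [ha k, onF_ept] at h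
      exact absurd h (by simp)
    · obtain ⟨m, hm⟩ := ha k
      rw [hm, onF_node] at h
      obtain ⟨c, hc, h2, _⟩ := h
      exact notMem_tree hn hk ⟨c, hc, h2⟩
  · exact Eventually.of_forall fun k => onF_notA D hA k

theorem coneF_notMem (D : Data) {K : Set Tr} (hK : ClK K) {t : Tr} (ht : t ∉ K)
    (hp : D.p t = none) : ∀ᶠ k in atTop, coneF K (D.a t k) = false := by
  by_cases hA : t ∈ D.A
  · obtain ⟨n, hn⟩ := hK t ht
    filter_upwards [(D.h t hA).tends.eventually_ge_atTop n] with k hk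
    rw [Bool.eq_false_iff]
    intro h
    rcases (D.h t hA).kind with ⟨m, hm, _⟩ | ⟨_, ha⟩ | ⟨_, ha⟩
    · rw [hp] at hm
      exact absurd hm (by simp)
    · rw [ha k, coneF_ept] at h
      exact notMem_tree hn hk h
    · obtain ⟨m, hm⟩ := ha k
      rw [hm, coneF_node] at h
      exact notMem_tree hn hk h
  · exact Eventually.of_forall fun k => coneF_notA D hA k

theorem hA_of_some (D : Data) {t : Tr} {u : Str} (hp : D.p t = some u) : t ∈ D.A := by
  by_contra hA
  rw [(D.h' t hA).1] at hp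
  exact absurd hp (by simp)

theorem coneF_some (D : Data) {K : Set Tr} {t : Tr} {m : ℕ}
    (hp : D.p t = some (res t m)) (k : ℕ) :
    coneF K (D.a t k) = true ↔ res t m ∈ tree K := by
  rcases (D.h t (hA_of_some D hp)).kind with ⟨m', hm, ha⟩ | ⟨hp', _⟩ | ⟨hp', _⟩
  · rw [ha k, coneF_node]
    rw [hp, Option.some_inj] at hm
    rw [hm]
  · rw [hp] at hp'
    exact absurd hp' (by simp)
  · rw [hp] at hp'
    exact absurd hp' (by simp)

theorem exists_res (D : Data) {t : Tr} {u : Str} (hp : D.p t = some u) : ∃ m, u = res t m := by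
  rcases (D.h t (hA_of_some D hp)).kind with ⟨m', hm, _⟩ | ⟨hp', _⟩ | ⟨hp', _⟩
  · rw [hp, Option.some_inj] at hm
    exact ⟨m', hm⟩
  · rw [hp] at hp'
    exact absurd hp' (by simp)
  · rw [hp] at hp'
    exact absurd hp' (by simp)

theorem exists_onF (D : Data) {K : Set Tr} (hK : ClK K) (t : Tr) :
    ∃ v, ∀ᶠ k in atTop, onF K (D.a t k) = v := by
  by_cases ht : t ∈ K
  · by_cases hA : t ∈ D.A
    · rcases (D.h t hA).kind with ⟨m, _, ha⟩ | ⟨_, ha⟩ | ⟨_, ha⟩
      · exact ⟨true, Eventually.of_forall fun k => onF_true.mpr ⟨t, ht, _, _, ha k⟩⟩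
      · exact ⟨false, Eventually.of_forall fun k => by rw [ha k, onF_ept]⟩
      · refine ⟨true, Eventually.of_forall fun k => ?_⟩
        obtain ⟨m, hm⟩ := ha k
        exact onF_true.mpr ⟨t, ht, _, _, hm⟩
    · exact ⟨false, Eventually.of_forall fun k => onF_notA D hA k⟩
  · exact ⟨false, onF_notMem D hK ht⟩

theorem exists_coneF (D : Data) {K : Set Tr} (hK : ClK K) (t : Tr) :
    ∃ v, ∀ᶠ k in atTop, coneF K (D.a t k) = v := by
  by_cases hA : t ∈ D.A
  · by_cases ht : t ∈ K
    · exact ⟨true, Eventually.of_forall fun k => coneF_mem D hA ht k⟩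
    · cases hp : D.p t with
      | none => exact ⟨false, coneF_notMem D hK ht hp⟩
      | some u =>
        obtain ⟨m, rfl⟩ := exists_res D hp
        by_cases hm : res t m ∈ tree K
        · exact ⟨true, Eventually.of_forall fun k => (coneF_some D hp k).mpr hm⟩
        · exact ⟨false, Eventually.of_forall fun k => by
            rw [Bool.eq_false_iff]
            exact fun h => hm ((coneF_some D hp k).mp h)⟩
  · exact ⟨false, Eventually.of_forall fun k => coneF_notA D hA k⟩

/-- Extension of a function on `E` to the whole space. -/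
noncomputable def mkCC (D : Data) (g : E → Bool) (h1 : ∀ p, Cond p g)
    (h2 : ∀ t, ∃ v, ∀ᶠ k in atTop, g (D.a t k) = v) : CC D :=
  ⟨Sum.elim g (fun t => (h2 t).choose), continuous_iff_mem_alg.mpr
    ⟨fun p => h1 p, fun t => (h2 t).choose_spec⟩⟩

theorem mkCC_inl (D : Data) (g : E → Bool) (h1 : ∀ p, Cond p g)
    (h2 : ∀ t, ∃ v, ∀ᶠ k in atTop, g (D.a t k) = v) (x : E) :
    (mkCC D g h1 h2).1 (Sum.inl x) = g x := rfl

theorem CC_inr_eq {D : Data} (h h' : CC D) (t : Tr)
    (he : ∀ᶠ k in atTop, h.1 (Sum.inl (D.a t k)) = h'.1 (Sum.inl (D.a t k))) :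
    h.1 (Sum.inr t) = h'.1 (Sum.inr t) := by
  have e1 := (continuous_iff_mem_alg.mp h.2).2 t
  have e2 := (continuous_iff_mem_alg.mp h'.2).2 t
  obtain ⟨k, ⟨h1, h2⟩, h3⟩ := ((e1.and e2).and he).exists
  rw [← h1, ← h2, h3]

theorem CC_inr_val {D : Data} (h : CC D) (t : Tr) {v : Bool}
    (he : ∀ᶠ k in atTop, h.1 (Sum.inl (D.a t k)) = v) : h.1 (Sum.inr t) = v := by
  have e1 := (continuous_iff_mem_alg.mp h.2).2 t
  obtain ⟨k, h1, h2⟩ := (e1.and he).exists
  rw [← h1, h2]

theorem CC_ext {D : Data} (h h' : CC D) (he : ∀ x : E, h.1 (Sum.inl x) = h'.1 (Sum.inl x)) :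
    h = h' := by
  apply Subtype.ext
  funext x
  rcases x with x | t
  · exact he x
  · exact CC_inr_eq h h' t (Eventually.of_forall fun k => he _)

/-- The pair of functions attached to `K`. -/
noncomputable def FF (D : Data) (K : Set Tr) (hK : GoodK K) : CC D × CC D :=
  (mkCC D (onF K) (cond_onF hK.thin) (exists_onF D hK.cl),
    mkCC D (coneF K) (cond_coneF hK.thin) (exists_coneF D hK.cl))

/-- The points of the closed discrete set. -/
noncomputable def F1 (D : Data) (t : Tr) : CC D × CC D := FF D {t} (good_singleton t)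

/-- The separating neighbourhoods. -/
def UU (D : Data) (t : Tr) : Set (CC D × CC D) :=
  {q | q.1.1 (Sum.inr t) = (F1 D t).1.1 (Sum.inr t) ∧
    q.2.1 (Sum.inr t) = (F1 D t).2.1 (Sum.inr t)}

theorem continuous_eval (D : Data) (x : XX D) : Continuous (fun h : CC D => h.1 x) :=
  (continuous_apply x).comp continuous_subtype_val

theorem isOpen_UU (D : Data) (t : Tr) : IsOpen (UU D t) := by
  apply IsOpen.inter
  · exact (isOpen_discrete {(F1 D t).1.1 (Sum.inr t)}).preimage
      ((continuous_eval D (Sum.inr t)).comp continuous_fst)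
  · exact (isOpen_discrete {(F1 D t).2.1 (Sum.inr t)}).preimage
      ((continuous_eval D (Sum.inr t)).comp continuous_snd)


theorem mem_UU (D : Data) {K : Set Tr} (hK : GoodK K) {t : Tr} (hA : t ∈ D.A) (ht : t ∈ K) :
    FF D K hK ∈ UU D t := by
  constructor
  · apply CC_inr_eq
    exact Eventually.of_forall fun k => onF_mem D (K' := {t}) ht (mem_singleton t) k
  · apply CC_inr_eq
    refine Eventually.of_forall fun k => ?_
    show coneF K (D.a t k) = coneF {t} (D.a t k)
    rw [coneF_mem D hA ht k, coneF_mem D (K := {t}) hA rfl k]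

theorem UU_sep (D : Data) {K : Set Tr} (hK : GoodK K) {t : Tr} (hA : t ∈ D.A)
    (h : FF D K hK ∈ UU D t) : t ∈ K := by
  by_contra ht
  have h1 : (FF D K hK).1.1 (Sum.inr t) = false :=
    CC_inr_val _ _ (onF_notMem D hK.cl ht)
  rcases (D.h t hA).kind with ⟨m, _, ha⟩ | ⟨hp, ha⟩ | ⟨_, ha⟩
  · have h2 : (F1 D t).1.1 (Sum.inr t) = true :=
      CC_inr_val _ _ (Eventually.of_forall fun k => onF_true.mpr ⟨t, rfl, _, _, ha k⟩)
    have := h.1
    rw [h1, h2] at this
    exact absurd this (by simp)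
  · have h2 : (FF D K hK).2.1 (Sum.inr t) = false :=
      CC_inr_val _ _ (coneF_notMem D hK.cl ht hp)
    have h3 : (F1 D t).2.1 (Sum.inr t) = true :=
      CC_inr_val _ _ (Eventually.of_forall fun k =>
        coneF_mem D (K := {t}) hA (mem_singleton t) k)
    have := h.2
    rw [h2, h3] at this
    exact absurd this (by simp)
  · have h2 : (F1 D t).1.1 (Sum.inr t) = true :=
      CC_inr_val _ _ (Eventually.of_forall fun k => by
        obtain ⟨m, hm⟩ := ha k
        exact onF_true.mpr ⟨t, rfl, _, _, hm⟩)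
    have := h.1
    rw [h1, h2] at this
    exact absurd this (by simp)

/-- The points of the closed set `Z`. -/
noncomputable def zz (D : Data) (κ : ℕ → Tr) : CC D × CC D := FF D (KK κ) (good_KK κ)

theorem isClosed_range_zz (D : Data) : IsClosed (range (zz D)) := by
  let rest : CC D × CC D → (E → Bool) × (E → Bool) := fun q =>
    (fun x => q.1.1 (Sum.inl x), fun x => q.2.1 (Sum.inl x))
  have hrest : Continuous rest := by
    refine Continuous.prodMk ?_ ?_
    · exact continuous_pi fun x => (continuous_eval D (Sum.inl x)).comp continuous_fst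
    · exact continuous_pi fun x => (continuous_eval D (Sum.inl x)).comp continuous_snd
  let Φ : (ℕ → Tr) → (E → Bool) × (E → Bool) := fun κ => (onF (KK κ), coneF (KK κ))
  have hΦ : Continuous Φ := continuous_onF_KK
  have hcl : IsClosed (range Φ) := (isCompact_range hΦ).isClosed
  have heq : range (zz D) = rest ⁻¹' range Φ := by
    ext q
    constructor
    · rintro ⟨t, rfl⟩
      exact ⟨t, rfl⟩
    · rintro ⟨t, ht⟩
      refine ⟨t, ?_⟩
      have h1 : ∀ x, onF (KK t) x = q.1.1 (Sum.inl x) :=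
        fun x => congrFun (congrArg Prod.fst ht) x
      have h2 : ∀ x, coneF (KK t) x = q.2.1 (Sum.inl x) :=
        fun x => congrFun (congrArg Prod.snd ht) x
      exact Prod.ext (CC_ext _ _ h1) (CC_ext _ _ h2)
  rw [heq]
  exact hcl.preimage hrest

theorem nhds_CC_prod {D : Data} {h0 : CC D × CC D} {U : Set (CC D × CC D)} (hU : U ∈ 𝓝 h0) :
    ∃ Q : Finset (XX D), ∀ h : CC D × CC D,
      (∀ x ∈ Q, h.1.1 x = h0.1.1 x ∧ h.2.1 x = h0.2.1 x) → h ∈ U := by
  classical
  obtain ⟨U1, hU1, U2, hU2, hsub⟩ := mem_nhds_prod_iff.mp hU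
  obtain ⟨Q1, hQ1⟩ := nhds_CC hU1
  obtain ⟨Q2, hQ2⟩ := nhds_CC hU2
  let _ : DecidableEq (XX D) := Classical.decEq _
  refine ⟨Q1 ∪ Q2, fun h hh => hsub ⟨?_, ?_⟩⟩
  · exact hQ1 _ fun x hx => (hh x (Finset.mem_union_left _ hx)).1
  · exact hQ2 _ fun x hx => (hh x (Finset.mem_union_right _ hx)).2


theorem zz_value (D : Data) (hA : D.A = crit) {k : ℕ} {κ : ℕ → Tr} (hκ : κ ∈ PP k) (x : XX D) :
    ∃ n, ∀ κ', κ' k = κ k → Agree n κ κ' →
      (zz D κ').1.1 x = (zz D κ).1.1 x ∧ (zz D κ').2.1 x = (zz D κ).2.1 x := by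
  rcases x with x | t
  · exact ⟨lenE x, fun κ' _ h => ⟨(onF_KK h le_rfl).symm, (coneF_KK h le_rfl).symm⟩⟩
  · by_cases ht : t ∈ D.A
    · by_cases htK : t ∈ KK κ
      · have htk := KK_crit hκ htK (by rw [← hA]; exact ht)
        refine ⟨0, fun κ' h1 _ => ?_⟩
        have htK' : t ∈ KK κ' := by
          rw [htk, ← h1]
          exact pre_mem_KK κ' k
        constructor
        · apply CC_inr_eq
          exact Eventually.of_forall fun k => onF_mem D htK' htK k
        · apply CC_inr_eq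
          refine Eventually.of_forall fun k => ?_
          show coneF (KK κ') (D.a t k) = coneF (KK κ) (D.a t k)
          rw [coneF_mem D ht htK' k, coneF_mem D ht htK k]
      · obtain ⟨n0, hn0⟩ := (good_KK κ).cl t htK
        obtain ⟨m, hm⟩ : ∃ m, ∀ u, D.p t = some u → u = res t m := by
          cases hp : D.p t with
          | none => exact ⟨0, fun u hu => absurd hu (by simp)⟩
          | some u =>
            obtain ⟨m, hm⟩ := exists_res D hp
            exact ⟨m, fun u' hu' => by rw [Option.some_inj] at hu'; rw [← hu', hm]⟩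
        refine ⟨max n0 m, fun κ' _ h2 => ?_⟩
        have htK' : t ∉ KK κ' := by
          intro hin
          obtain ⟨c, hc, hce⟩ := KK_agree (h2.mono (le_max_left n0 m)).symm hin
          exact hn0 c hc hce
        constructor
        · apply CC_inr_eq
          filter_upwards [onF_notMem D (good_KK κ').cl htK', onF_notMem D (good_KK κ).cl htK]
            with k h3 h4
          show onF (KK κ') (D.a t k) = onF (KK κ) (D.a t k)
          rw [h3, h4]
        · apply CC_inr_eq
          cases hp : D.p t with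
          | none =>
            filter_upwards [coneF_notMem D (good_KK κ').cl htK' hp,
              coneF_notMem D (good_KK κ).cl htK hp] with k h3 h4
            show coneF (KK κ') (D.a t k) = coneF (KK κ) (D.a t k)
            rw [h3, h4]
          | some u =>
            have hum := hm u hp
            subst hum
            refine Eventually.of_forall fun k => ?_
            show coneF (KK κ') (D.a t k) = coneF (KK κ) (D.a t k)
            rw [Bool.eq_iff_iff, coneF_some D hp, coneF_some D hp]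
            exact (tree_KK h2 (by rw [PiNat.res_length]; exact le_max_right _ _)).symm
    · refine ⟨0, fun κ' _ _ => ⟨?_, ?_⟩⟩
      · apply CC_inr_eq
        refine Eventually.of_forall fun k => ?_
        show onF (KK κ') (D.a t k) = onF (KK κ) (D.a t k)
        rw [onF_notA D ht, onF_notA D ht]
      · apply CC_inr_eq
        refine Eventually.of_forall fun k => ?_
        show coneF (KK κ') (D.a t k) = coneF (KK κ) (D.a t k)
        rw [coneF_notA D ht, coneF_notA D ht]

theorem zz_nhds (D : Data) (hA : D.A = crit) {k : ℕ} {κ : ℕ → Tr} (hκ : κ ∈ PP k)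
    {V : Set (CC D × CC D)} (hV : V ∈ 𝓝 (zz D κ)) :
    ∃ n, ∀ κ', κ' k = κ k → Agree n κ κ' → zz D κ' ∈ V := by
  obtain ⟨Q, hQ⟩ := nhds_CC_prod hV
  choose n hn using fun x => zz_value D hA hκ x
  refine ⟨Q.sup n, fun κ' h1 h2 => hQ _ fun x hx => ?_⟩
  exact hn x κ' h1 (h2.mono (Finset.le_sup hx))

/-- The main tool: neighbourhood assignments are defeated by a single point. -/
theorem core_zz (D : Data) (hA : D.A = crit) (V : ℕ → (ℕ → Tr) → Set (CC D × CC D))
    (hV : ∀ k κ, κ ∈ PP k → V k κ ∈ 𝓝 (zz D κ)) :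
    ∃ (κs : ℕ → Tr) (w : ℕ → ℕ → Tr), (∀ l, κs l ∉ Bc) ∧ ∀ l, w l ∈ PP l ∧ w l l = κs l ∧
      zz D κs ∈ V l (w l) := by
  classical
  have h1 : ∀ k κ, ∃ n, κ ∈ PP k → ∀ κ', κ' k = κ k → Agree n κ κ' → zz D κ' ∈ V k κ := by
    intro k κ
    by_cases h : κ ∈ PP k
    · obtain ⟨n, hn⟩ := zz_nhds D hA h (hV k κ h)
      exact ⟨n, fun _ => hn⟩
    · exact ⟨0, fun h' => absurd h' h⟩
  choose nn hnn using h1
  obtain ⟨κs, hκs⟩ := core_agree nn
  choose h2 w hw1 hw2 hw3 using hκs
  exact ⟨κs, w, h2, fun l => ⟨hw1 l, hw2 l, hnn l (w l) (hw1 l) κs (hw2 l).symm (hw3 l)⟩⟩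

end Pool.Agent.Hhelper60.Cq
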