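import Pool.Agent.Hhelper60.CqFF
import Pool.Agent.Hhelper60.CpFinal

open Filter Set Topology

namespace Pool.Agent.Hhelper60.Cq

open PiNat (res)

open Pool.Agent.Hhelper60.Cp

/-- Subparacompactness: every open cover has a sigma-discrete closed refinement. -/
def Subparacompact (Y : Type*) [TopologicalSpace Y] : Prop :=
  ∀ U : Set (Set Y), (∀ u ∈ U, IsOpen u) → ⋃₀ U = univ →
    ∃ F : ℕ → Set (Set Y), (∀ n, ∀ s ∈ F n, IsClosed s) ∧
      (∀ n y, ∃ W, IsOpen W ∧ y ∈ W ∧ {s ∈ F n | (s ∩ W).Nonempty}.Subsingleton) ∧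
      (⋃ n, ⋃₀ F n = univ) ∧ ∀ n, ∀ s ∈ F n, ∃ u ∈ U, s ⊆ u

/-- The open cover witnessing the failure of the covering properties. -/
def cov (D : Data) : Set (Set (CC D × CC D)) := insert (range (zz D))ᶜ (UU D '' D.A)

theorem cov_open (D : Data) : ∀ u ∈ cov D, IsOpen u := by
  rintro u (rfl | ⟨t, _, rfl⟩)
  · exact (isClosed_range_zz D).isOpen_compl
  · exact isOpen_UU D t

theorem cov_univ (D : Data) (hA : D.A = crit) : ⋃₀ cov D = univ := by
  rw [eq_univ_iff_forall]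
  intro q
  by_cases hq : q ∈ range (zz D)
  · obtain ⟨κ, rfl⟩ := hq
    obtain ⟨t, ht, htK⟩ := exists_crit κ
    have htA : t ∈ D.A := by rw [hA]; exact ht
    exact mem_sUnion.mpr ⟨UU D t, Or.inr ⟨t, htA, rfl⟩, mem_UU D (good_KK κ) htA htK⟩
  · exact mem_sUnion.mpr ⟨_, Or.inl rfl, hq⟩

theorem zz_mem_UU (D : Data) (hA : D.A = crit) {k : ℕ} {κ : ℕ → Tr} (hκ : κ ∈ PP k) {t : Tr}
    (ht : t ∈ D.A) (h : zz D κ ∈ UU D t) : t = pre k (κ k) :=
  KK_crit hκ (UU_sep D (good_KK κ) ht h) (by rw [← hA]; exact ht)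

theorem not_subparacompact (D : Data) (hA : D.A = crit) : ¬ Subparacompact (CC D × CC D) := by
  classical
  intro hsub
  obtain ⟨F, hFc, hFd, hFu, hFr⟩ := hsub (cov D) (cov_open D) (cov_univ D hA)
  have hN : ∀ n y, ∃ N ∈ 𝓝 y, ∀ s ∈ F n, (s ∩ N).Nonempty → y ∈ s := by
    intro n y
    obtain ⟨W, hWo, hyW, hW⟩ := hFd n y
    by_cases h : ∃ s ∈ F n, (s ∩ W).Nonempty ∧ y ∉ s
    · obtain ⟨s, hs, hsW, hys⟩ := h
      refine ⟨W ∩ sᶜ, (hWo.inter (hFc n s hs).isOpen_compl).mem_nhds ⟨hyW, hys⟩, ?_⟩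
      rintro s' hs' ⟨x, hx1, hx2, hx3⟩
      have heq : s' = s := hW ⟨hs', ⟨x, hx1, hx2⟩⟩ ⟨hs, hsW⟩
      subst heq
      exact absurd hx1 hx3
    · push Not at h
      exact ⟨W, hWo.mem_nhds hyW, h⟩
  choose N hN1 hN2 using hN
  obtain ⟨κs, w, _, hw⟩ := core_zz D hA (fun k κ => ⋂ i ∈ Finset.range (k + 1), N i (zz D κ))
    (fun k κ _ => (Filter.biInter_finset_mem _).mpr fun i _ => hN1 i _)
  have hmem : zz D κs ∈ ⋃ n, ⋃₀ F n := by rw [hFu]; trivial
  obtain ⟨n, hn⟩ := mem_iUnion.mp hmem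
  obtain ⟨s, hs, hzs⟩ := mem_sUnion.mp hn
  have hall : ∀ l, n ≤ l → zz D (w l) ∈ s := by
    intro l hl
    apply hN2 n (zz D (w l)) s hs
    exact ⟨zz D κs, hzs, mem_iInter₂.mp (hw l).2.2 n (Finset.mem_range.mpr (by omega))⟩
  obtain ⟨u, hu, hsu⟩ := hFr n s hs
  rcases hu with rfl | ⟨t, ht, rfl⟩
  · exact hsu hzs ⟨κs, rfl⟩
  · have h1 := zz_mem_UU D hA (hw n).1 ht (hsu (hall n le_rfl))
    have h2 := zz_mem_UU D hA (hw (n + 1)).1 ht (hsu (hall (n + 1) (by omega)))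
    have h3 := (pre_inj (h1.symm.trans h2)).1
    omega

theorem not_metacompact (D : Data) (hA : D.A = crit) : ¬ Metacompact (CC D × CC D) := by
  classical
  intro hmeta
  obtain ⟨𝒱, hVo, hVc, hVr, hVf⟩ := hmeta (cov D) (cov_open D) (cov_univ D hA)
  have hV : ∀ κ, ∃ V ∈ 𝒱, zz D κ ∈ V ∧ ∃ t ∈ D.A, V ⊆ UU D t := by
    intro κ
    have : zz D κ ∈ ⋃₀ 𝒱 := by rw [hVc]; trivial
    obtain ⟨V, hV, htV⟩ := mem_sUnion.mp this
    obtain ⟨u, hu, hVu⟩ := hVr V hV
    rcases hu with rfl | ⟨t, ht, rfl⟩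
    · exact absurd ⟨κ, rfl⟩ (hVu htV)
    · exact ⟨V, hV, htV, t, ht, hVu⟩
  choose V hV1 hV2 tt htt hV3 using hV
  obtain ⟨κs, w, _, hw⟩ := core_zz D hA (fun _ κ => V κ)
    (fun k κ _ => (hVo _ (hV1 κ)).mem_nhds (hV2 κ))
  have hinj : Function.Injective fun l => V (w l) := by
    intro l m hlm
    simp only at hlm
    have h1 := zz_mem_UU D hA (hw m).1 (htt (w m)) (hV3 (w m) (hV2 (w m)))
    have h2 := zz_mem_UU D hA (hw l).1 (htt (w m)) (hV3 (w m) (hlm ▸ hV2 (w l)))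
    exact (pre_inj (h2.symm.trans h1)).1
  exact Set.infinite_of_injective_forall_mem hinj
    (s := {v ∈ 𝒱 | zz D κs ∈ v}) (fun j => ⟨hV1 _, (hw j).2.2⟩) (hVf _)

theorem not_lindelof_sq (D : Data) (hA : D.A = crit) : ¬ LindelofSpace (CC D × CC D) := by
  classical
  intro hL
  let U : Option D.A → Set (CC D × CC D) := fun o => o.elim (range (zz D))ᶜ (fun t => UU D t.1)
  obtain ⟨r, hr, hcov⟩ := hL.isLindelof_univ.elim_countable_subcover U (by
      rintro (_ | t)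
      · exact (isClosed_range_zz D).isOpen_compl
      · exact isOpen_UU D t.1) (by
      intro q _
      have : q ∈ ⋃₀ cov D := by rw [cov_univ D hA]; trivial
      obtain ⟨u, hu, hqu⟩ := mem_sUnion.mp this
      rcases hu with rfl | ⟨t, ht, rfl⟩
      · exact mem_iUnion.mpr ⟨none, hqu⟩
      · exact mem_iUnion.mpr ⟨some ⟨t, ht⟩, hqu⟩)
  have hT : ((fun t : D.A => t.1) '' (some ⁻¹' r)).Countable :=
    (hr.preimage_of_injOn (fun a _ b _ h => Option.some_injective _ h)).image _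
  have hsub : Bcᶜ ⊆ pre 0 ⁻¹' ((fun t : D.A => t.1) '' (some ⁻¹' r)) := by
    intro a ha
    let κ : ℕ → Tr := fun j => if j = 0 then a else z0
    have hκ : κ ∈ PP 0 := by
      refine ⟨by simpa [κ] using ha, fun j hj => ?_⟩
      simp only [κ, if_neg hj]
      exact ⟨0, fun _ _ => rfl⟩
    obtain ⟨o, ho, hto⟩ := mem_iUnion₂.mp (hcov (mem_univ (zz D κ)))
    rcases o with _ | t'
    · exact absurd ⟨κ, rfl⟩ hto
    · have h1 := zz_mem_UU D hA hκ t'.2 hto
      have h2 : κ 0 = a := by simp [κ]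
      rw [h2] at h1
      exact ⟨t', ho, h1⟩
  have hcount : (Bcᶜ : Set Tr).Countable :=
    (hT.preimage_of_injOn (fun a _ b _ h => (pre_inj h).2)).mono hsub
  have h0 : (univ : Set Tr).Countable := by
    refine (hcount.union Bc_countable).mono ?_
    intro t _
    by_cases h : t ∈ Bc
    · exact Or.inr h
    · exact Or.inl h
  have h1 := Cardinal.mk_le_aleph0_iff.mpr (Set.countable_univ_iff.mp h0)
  rw [mk_Tr] at h1
  exact absurd h1 (not_le.mpr Cardinal.aleph0_lt_continuum)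

theorem subparacompact_of_homeo {X Y : Type*} [TopologicalSpace X] [TopologicalSpace Y]
    (e : X ≃ₜ Y) (h : Subparacompact X) : Subparacompact Y := by
  intro U hU hcov
  obtain ⟨F, hF1, hF2, hF3, hF4⟩ := h ((fun u => e ⁻¹' u) '' U) (by
      rintro _ ⟨u, hu, rfl⟩
      exact (hU u hu).preimage e.continuous) (by
      rw [eq_univ_iff_forall]
      intro x
      have : e x ∈ ⋃₀ U := by rw [hcov]; trivial
      obtain ⟨u, hu, hxu⟩ := mem_sUnion.mp this
      exact mem_sUnion.mpr ⟨_, ⟨u, hu, rfl⟩, hxu⟩)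
  refine ⟨fun n => (fun v => e.symm ⁻¹' v) '' F n, ?_, ?_, ?_, ?_⟩
  · rintro n _ ⟨v, hv, rfl⟩
    exact (hF1 n v hv).preimage e.symm.continuous
  · intro n y
    obtain ⟨W, hWo, hyW, hW⟩ := hF2 n (e.symm y)
    refine ⟨e.symm ⁻¹' W, hWo.preimage e.symm.continuous, hyW, ?_⟩
    rintro _ ⟨⟨v, hv, rfl⟩, x, hx1, hx2⟩ _ ⟨⟨v', hv', rfl⟩, x', hx1', hx2'⟩
    have : v = v' := hW ⟨hv, ⟨e.symm x, hx1, hx2⟩⟩ ⟨hv', ⟨e.symm x', hx1', hx2'⟩⟩
    rw [this]
  · rw [eq_univ_iff_forall]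
    intro y
    have : e.symm y ∈ ⋃ n, ⋃₀ F n := by rw [hF3]; trivial
    obtain ⟨n, hn⟩ := mem_iUnion.mp this
    obtain ⟨v, hv, hyv⟩ := mem_sUnion.mp hn
    exact mem_iUnion.mpr ⟨n, mem_sUnion.mpr ⟨_, ⟨v, hv, rfl⟩, hyv⟩⟩
  · rintro n _ ⟨v, hv, rfl⟩
    obtain ⟨_, ⟨u, hu, rfl⟩, hvu⟩ := hF4 n v hv
    refine ⟨u, hu, ?_⟩
    intro y hy
    have := hvu hy
    simpa using this

/-- The space `X`. -/
def X (D : Data) : Type := range (ev D)

instance (D : Data) : TopologicalSpace (X D) := inferInstanceAs (TopologicalSpace (range (ev D)))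

instance (D : Data) : T35Space (X D) := inferInstanceAs (T35Space (range (ev D)))

/-- The map onto `X`. -/
def qq (D : Data) : XX D → X D := fun x => ⟨ev D x, x, rfl⟩

theorem qq_surj (D : Data) : Function.Surjective (qq D) := by
  rintro ⟨_, x, rfl⟩
  exact ⟨x, rfl⟩

theorem qq_inducing (D : Data) : IsInducing (qq D) := by
  have h1 : IsInducing (Subtype.val ∘ qq D : XX D → (Alg D → Bool)) := isInducing_ev D
  exact IsInducing.of_comp (by
    apply Continuous.subtype_mk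
    exact (isInducing_ev D).continuous) continuous_subtype_val h1

theorem basis_X (D : Data) :
    TopologicalSpace.IsTopologicalBasis {s : Set (X D) | IsClopen s} := by
  apply TopologicalSpace.isTopologicalBasis_of_isOpen_of_nhds
  · intro u hu
    exact hu.2
  · intro x U hx hU
    obtain ⟨V, hV, rfl⟩ := isOpen_induced_iff.mp hU
    obtain ⟨W, hW, hxW, hWV⟩ :=
      (isTopologicalBasis_isClopen (X := Alg D → Bool)).exists_subset_of_mem_open
        (show x.1 ∈ V from hx) hV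
    exact ⟨Subtype.val ⁻¹' W, IsClopen.preimage hW continuous_subtype_val, hxW,
      fun y hy => hWV hy⟩


theorem exists_space : ∃ (X : Type) (_ : TopologicalSpace X), T35Space X ∧
    TopologicalSpace.IsTopologicalBasis {s : Set X | IsClopen s} ∧
    LindelofSpace {f : X → Bool // Continuous f} ∧
    ¬ LindelofSpace ({f : X → Bool // Continuous f} × {f : X → Bool // Continuous f}) ∧
    ¬ Metacompact ({f : X → Bool // Continuous f} × {f : X → Bool // Continuous f}) ∧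
    ¬ Subparacompact ({f : X → Bool // Continuous f} × {f : X → Bool // Continuous f}) := by
  obtain ⟨Θ, hΘ⟩ := exists_theta E
  let D := dataOf crit Θ
  have hA : D.A = crit := rfl
  have hL : LindelofSpace (CC D) := lindelof_CC D Θ (dataOf_good crit Θ) hΘ
  let e : {f : X D → Bool // Continuous f} ≃ₜ CC D :=
    homeoOfInducing (qq D) (qq_inducing D) (qq_surj D)
  refine ⟨X D, inferInstance, inferInstance, basis_X D, lindelof_of_homeo e hL, ?_, ?_, ?_⟩
  · intro h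
    exact not_lindelof_sq D hA (lindelof_of_homeo (e.prodCongr e).symm h)
  · intro h
    exact not_metacompact D hA (metacompact_of_homeo (e.prodCongr e) h)
  · intro h
    exact not_subparacompact D hA (subparacompact_of_homeo (e.prodCongr e) h)

end Pool.Agent.Hhelper60.Cq
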