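import Pool.Agent.Hhelper60.CpNonMeta

open Filter Set Topology

namespace Pool.Agent.Hhelper60.Cq

open PiNat (res)

open Pool.Agent.Hhelper60.Cp

/-- The data defining the space: the points `y_t` are present for `t` in the critical set. -/
structure Data where
  A : Set Tr
  p : Tr → Option Str
  a : Tr → ℕ → E
  l : Tr → ℕ → ℕ
  h : ∀ t ∈ A, IsAsg t (p t) (a t) (l t)
  h' : ∀ t, t ∉ A → p t = none ∧ ∀ k, a t k = ept none

/-- The algebra of functions. -/
def Alg (D : Data) : Set (E ⊕ Tr → Bool) :=
  {f | (∀ p, Cond p (fun x => f (Sum.inl x))) ∧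
    ∀ t, ∀ᶠ k in atTop, f (Sum.inl (D.a t k)) = f (Sum.inr t)}

/-- The (a priori non-separated) space. -/
def XX (_D : Data) : Type := E ⊕ Tr

/-- The evaluation map. -/
def ev (D : Data) : XX D → (Alg D → Bool) := fun x f => f.1 x

instance (D : Data) : TopologicalSpace (XX D) := TopologicalSpace.induced (ev D) inferInstance

theorem isInducing_ev (D : Data) : IsInducing (ev D) := ⟨rfl⟩

theorem local_finset {D : Data} {f : XX D → Bool} (hf : Continuous f) (x : XX D) :
    ∃ I : Finset (Alg D), ∀ y : XX D, (∀ g ∈ I, g.1 y = g.1 x) → f y = f x := by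
  have ho : IsOpen {y | f y = f x} := (isOpen_discrete {f x}).preimage hf
  obtain ⟨V, hV, hVe⟩ := isOpen_induced_iff.mp ho
  have hx : ev D x ∈ V := by
    have : x ∈ ev D ⁻¹' V := by rw [hVe]; rfl
    exact this
  obtain ⟨I, u, hu, hsub⟩ := isOpen_pi_iff.mp hV _ hx
  refine ⟨I, fun y hy => ?_⟩
  have : y ∈ ev D ⁻¹' V := by
    apply hsub
    intro g hg
    have h1 : ev D y g = ev D x g := hy g hg
    rw [h1]
    exact (hu g hg).2
  rw [hVe] at this
  exact this

theorem continuous_iff_mem_alg {D : Data} {f : XX D → Bool} :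
    Continuous f ↔ f ∈ Alg D := by
  constructor
  · intro hf
    refine ⟨fun p => ?_, fun t => ?_⟩
    · obtain ⟨I, hI⟩ := local_finset hf (Sum.inl (ept p))
      choose K hK1 hK2 using fun g : Alg D => g.2.1 p
      refine ⟨⋃ g ∈ I, K g, Thin.biUnion I K fun g _ => hK1 g, ?_⟩
      intro s x hsx hs
      apply hI
      intro g hg
      refine hK2 g s x hsx fun hmem => hs (tree_mono ?_ hmem)
      exact Set.subset_biUnion_of_mem (u := K) (show g ∈ (I : Set (Alg D)) from hg)
    · obtain ⟨I, hI⟩ := local_finset hf (Sum.inr t)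
      have h1 : ∀ᶠ k in atTop, ∀ g ∈ I, g.1 (Sum.inl (D.a t k)) = g.1 (Sum.inr t) := by
        rw [Filter.eventually_all_finset]
        intro g _
        exact g.2.2 t
      filter_upwards [h1] with k hk
      exact hI _ hk
  · intro hf
    have : f = (fun G : Alg D → Bool => G ⟨f, hf⟩) ∘ ev D := rfl
    rw [this]
    exact (continuous_apply _).comp continuous_induced_dom


/-- The main reference property. -/
theorem star' (D : Data) {t : Tr} {g : E → Bool} {c : ℕ → Tr}
    (hg : ∀ s x, At (D.p t) s x → (∀ i, res (c i) s.length ≠ s) → g x = g (ept (D.p t)))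
    {n : ℕ} (hn : ∀ i, res (c i) n ≠ res t n) :
    ∀ᶠ k in atTop, g (D.a t k) = g (ept (D.p t)) := by
  by_cases ht : t ∈ D.A
  · exact star (D.h t ht) hg hn
  · obtain ⟨h1, h2⟩ := D.h' t ht
    exact Eventually.of_forall fun k => by rw [h2 k, h1]

/-- Continuous two-valued functions with the topology of pointwise convergence. -/
abbrev CC (D : Data) := {f : XX D → Bool // Continuous f}

open Classical in
/-- The data built from a function `Θ` and the critical set. -/
noncomputable def dataOf (A : Set Tr) (Θ : Tr → (E → Bool)) : Data where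
  A := A
  p t := if t ∈ A then (pigeonhole (Θ t) t).choose else none
  a t := if t ∈ A then (pigeonhole (Θ t) t).choose_spec.choose else fun _ => ept none
  l t := (pigeonhole (Θ t) t).choose_spec.choose_spec.choose
  h t ht := by
    simp only [if_pos ht]
    exact (pigeonhole (Θ t) t).choose_spec.choose_spec.choose_spec.1
  h' t ht := by
    simp only [if_neg ht]
    exact ⟨trivial, fun _ => trivial⟩

theorem dataOf_good (A : Set Tr) (Θ : Tr → (E → Bool)) (t : Tr) (k : ℕ) :
    Θ t ((dataOf A Θ).a t k) = Θ t (ept ((dataOf A Θ).p t)) := by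
  by_cases ht : t ∈ A
  · simp only [dataOf, if_pos ht]
    exact (pigeonhole (Θ t) t).choose_spec.choose_spec.choose_spec.2 k
  · simp only [dataOf, if_neg ht]

end Pool.Agent.Hhelper60.Cq
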